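import Pool.Agent.LibQry85.Adv

/-! From few queries to short advice. -/

namespace Pool.Agent.LibScale55

open Function Pool.Agent.LibNexp Pool.Agent.LibBHN Pool.Agent.LibDual85 Pool.Agent.LibQry85

variable {O : List Bool → Bool}

/-- The length of the questions. -/
def ellq (M D n : ℕ) : ℕ := (2 ^ (M + D + 2) * (n + 1)) ^ (M + 1)

private theorem ellq_key {r : ℕ → ℕ} {M D : ℕ}
    (hr : ∀ n, (M + 1) * r n ≤ M * Nat.log 2 (n + 1) + D) (n : ℕ) :
    2 ^ r (2 * n + 2 + ellq M D n) ≤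
      2 ^ (M + D) * (2 ^ (M + D + 2) * (n + 1)) ^ M := by
  unfold ellq
  have hA : 4 ≤ 2 ^ (M + D + 2) := by
    calc 4 = 2 ^ 2 := by norm_num
      _ ≤ 2 ^ (M + D + 2) := Nat.pow_le_pow_right (by norm_num) (by omega)
  have hZ : 4 * (n + 1) ≤ 2 ^ (M + D + 2) * (n + 1) := Nat.mul_le_mul_right _ hA
  generalize hZdef : 2 ^ (M + D + 2) * (n + 1) = Z at hZ ⊢
  have hZZ : Z ≤ Z ^ (M + 1) := by
    calc Z = Z ^ 1 := (pow_one Z).symm
      _ ≤ Z ^ (M + 1) := Nat.pow_le_pow_right (by omega) (by omega)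
  generalize hl : 2 * n + 2 + Z ^ (M + 1) = l
  have hl1 : l + 1 ≤ 2 * Z ^ (M + 1) := by omega
  have h1 : (2 ^ r l) ^ (M + 1) ≤ (2 ^ (M + D) * Z ^ M) ^ (M + 1) := by
    calc (2 ^ r l) ^ (M + 1) = 2 ^ ((M + 1) * r l) := by rw [← pow_mul, mul_comm]
      _ ≤ 2 ^ (M * Nat.log 2 (l + 1) + D) := Nat.pow_le_pow_right (by norm_num) (hr l)
      _ = (2 ^ Nat.log 2 (l + 1)) ^ M * 2 ^ D := by rw [pow_add, ← pow_mul, mul_comm M]
      _ ≤ (l + 1) ^ M * 2 ^ D :=
          Nat.mul_le_mul_right _ (Nat.pow_le_pow_left (Nat.pow_log_le_self 2 (by omega)) _)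
      _ ≤ (2 * Z ^ (M + 1)) ^ M * 2 ^ D :=
          Nat.mul_le_mul_right _ (Nat.pow_le_pow_left hl1 _)
      _ = 2 ^ (M + D) * (Z ^ M) ^ (M + 1) := by
          rw [mul_pow, ← pow_mul Z (M + 1) M, ← pow_mul Z M (M + 1), mul_comm (M + 1) M,
            pow_add 2 M D]
          ring
      _ ≤ (2 ^ (M + D)) ^ (M + 1) * (Z ^ M) ^ (M + 1) := by
          apply Nat.mul_le_mul_right
          calc 2 ^ (M + D) = (2 ^ (M + D)) ^ 1 := (pow_one _).symm
            _ ≤ (2 ^ (M + D)) ^ (M + 1) :=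
              Nat.pow_le_pow_right (Nat.pow_pos (by norm_num)) (by omega)
      _ = (2 ^ (M + D) * Z ^ M) ^ (M + 1) := by rw [mul_pow]
  exact (Nat.pow_le_pow_iff_left (by omega)).1 h1

theorem constr_ellq (O : List Bool → Bool) (M D : ℕ) : Constr O (ellq M D) := by
  apply constr_of_nexp
  unfold ellq
  generalize 2 ^ (M + D + 2) = A
  have h1 : NEXP O fun e : Fin 3 → List Bool =>
      (e 2).length = A * (e 0).length + A ∧ (e 1).length = (e 2).length ^ (M + 1) + 0 :=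
    (nexp_lin A A 0 2).and (nexp_powAdd (M + 1) 0 2 1)
  have h2 := nexp_ex (R := fun (e : Fin 2 → List Bool) z =>
    z.length = A * (e 0).length + A ∧ (e 1).length = z.length ^ (M + 1) + 0) h1
    (g := fun n => A * n + A) (((PolyB.const A).mul PolyB.id).add (PolyB.const A)) (by
      rintro e z ⟨h3, -⟩
      have h4 := Nat.mul_le_mul_left A (len_le_size e 0)
      show _ ≤ A * size e + A
      omega)
  refine h2.congr fun e => ?_
  constructor
  · rintro ⟨z, h3, h4⟩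
    show (e 1).length = (A * ((e 0).length + 1)) ^ (M + 1)
    rw [h4, h3, add_zero]
    ring
  · intro h3
    refine ⟨List.replicate (A * (e 0).length + A) true, by simp, ?_⟩
    rw [List.length_replicate, add_zero]
    have h4 : (e 1).length = (A * ((e 0).length + 1)) ^ (M + 1) := h3
    rw [h4]
    ring

theorem polyB_ellq (M D : ℕ) : PolyB (ellq M D) :=
  ((PolyB.const (2 ^ (M + D + 2))).mul PolyB.id.succ).pow (M + 1)

theorem ellq_large {r : ℕ → ℕ} {M D : ℕ}
    (hr : ∀ n, (M + 1) * r n ≤ M * Nat.log 2 (n + 1) + D) (n : ℕ) :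
    (n + 1) * 2 ^ (r (2 * n + 2 + ellq M D n) + 1) ≤ ellq M D n := by
  have h1 := ellq_key hr n
  calc (n + 1) * 2 ^ (r (2 * n + 2 + ellq M D n) + 1)
      = ((n + 1) * 2) * 2 ^ r (2 * n + 2 + ellq M D n) := by
        rw [pow_succ]; ring
    _ ≤ ((n + 1) * 2) * (2 ^ (M + D) * (2 ^ (M + D + 2) * (n + 1)) ^ M) :=
        Nat.mul_le_mul_left _ h1
    _ = (2 ^ (M + D + 1) * (n + 1)) * (2 ^ (M + D + 2) * (n + 1)) ^ M := by
        rw [pow_succ 2 (M + D)]; ring
    _ ≤ (2 ^ (M + D + 2) * (n + 1)) * (2 ^ (M + D + 2) * (n + 1)) ^ M := by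
        apply Nat.mul_le_mul_right
        apply Nat.mul_le_mul_right
        exact Nat.pow_le_pow_right (by norm_num) (by omega)
    _ = ellq M D n := by unfold ellq; rw [pow_succ]; ring

theorem exists_hardLang {K : Lang} (hK : K ∈ NEXPLang O) {R : ℕ → ℕ} (hR : Constr O R)
    (hRp : PolyB R) : ∃ Lc ∈ PQueryF (NEXPLang O) R, ∀ (r : ℕ → ℕ) (M D n0 : ℕ), Constr O r →
      (∀ n, (M + 1) * r n ≤ M * Nat.log 2 (n + 1) + D) → (∀ n, n0 ≤ n → r n < R n) →
      Lc ∈ PQueryF (NEXPLang O) r →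
      Kᶜ ∈ WithAdvice (NEXPLang O) {f | ∀ n, (f n).length ≤ r (2 * n + 2 + ellq M D n) + 1} := by
  obtain ⟨Lc, hLc1, hLc2⟩ := exists_chainLang hK hR hRp
  refine ⟨Lc, hLc1, fun r M D n0 hr hM hn0 hLr => ?_⟩
  have hrp : PolyB r := polyB_of_log hM
  obtain ⟨F, hF, G, hG, hG', hFG⟩ := kprot_of_pqueryF hLr
  have hcase : ∀ n, ∃ i, n0 ≤ n → (i < 2 ^ (r (2 * n + 2 + ellq M D n) + 1) ∧
      ∀ x a : List Bool, x.length = n → val a = i →
        (RelC K F G r (ellq M D) x a ↔ x ∉ K)) := by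
    intro n
    by_cases hn : n0 ≤ n
    · obtain ⟨i, hi⟩ := exists_case (K := K) (n := n) (rho := r) (ell := ellq M D) (Lc := Lc)
        (F := F) (G := G) (by
          intro Y m hY hm hj
          have h1 := hn0 (2 * n + 2 + ellq M D n) (by omega)
          have h2 : (pair (ones n) Y).length = 2 * n + 2 + ellq M D n := by
            rw [length_pair, List.length_replicate, hY]
            omega
          refine hLc2 (ones n) Y m (by rw [h2]; omega) ?_ (by simpa using hj)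
          rw [h2]
          exact hm.trans_le (Nat.pow_le_pow_right (by norm_num) h1)) hFG (ellq_large hM n)
      exact ⟨i, fun _ => hi⟩
    · exact ⟨0, fun h1 => absurd h1 hn⟩
  choose i hi using hcase
  refine advice_patch (K := K) (R := RelC K F G r (ellq M D))
    (nexp_relC hK hF hG' hr hrp (constr_ellq O M D) (polyB_ellq M D))
    (f := fun n => bits (r (2 * n + 2 + ellq M D n) + 1) (i n)) (n0 := n0) ?_ ?_
  · intro x hx
    obtain ⟨h1, h2⟩ := hi x.length hx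
    exact h2 x _ rfl (val_bits h1)
  · intro n
    rw [length_bits]

/-- The advice at the scale of powers. -/
theorem ellq_le (M D : ℕ) : ∃ n0, ∀ n, n0 ≤ n → 2 * n + 2 + ellq M D n ≤ n ^ (M + 2) := by
  set A := 2 ^ (M + D + 2) with hA
  refine ⟨(2 * A) ^ (M + 1) + 5, fun n hn => ?_⟩
  have hn5 : 5 ≤ n := by omega
  have h1 : n + 1 ≤ 2 * n := by omega
  have h2 : ellq M D n ≤ (2 * A) ^ (M + 1) * n ^ (M + 1) := by
    unfold ellq
    rw [← mul_pow]
    refine Nat.pow_le_pow_left ?_ _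
    calc A * (n + 1) ≤ A * (2 * n) := Nat.mul_le_mul_left _ h1
      _ = 2 * A * n := by ring
  have h3 : n ≤ n ^ (M + 1) := by
    calc n = n ^ 1 := (pow_one n).symm
      _ ≤ n ^ (M + 1) := Nat.pow_le_pow_right (by omega) (by omega)
  calc 2 * n + 2 + ellq M D n ≤ 5 * n ^ (M + 1) + (2 * A) ^ (M + 1) * n ^ (M + 1) := by omega
    _ = ((2 * A) ^ (M + 1) + 5) * n ^ (M + 1) := by ring
    _ ≤ n * n ^ (M + 1) := Nat.mul_le_mul_right _ hn
    _ = n ^ (M + 2) := by ring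

end Pool.Agent.LibScale55
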