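import Pool.Agent.LibBHN.Mach

/-! Machines that use the first answer. -/

namespace Pool.Agent.LibScale55

open Function Pool.Agent.LibNexp Pool.Agent.LibBHN

/-- Shift the states. -/
def shiftC (d : ℕ) : Cmd → Cmd
  | .push r b q => .push r b (d + q)
  | .pop r q0 q1 qe => .pop r (d + q0) (d + q1) (d + qe)
  | .halt b => .halt b

theorem next_shift {M N : Mach} {d : ℕ}
    (hN : ∀ i k, M[i]? = some k → N[d + i]? = some (shiftC d k)) {c : Cfg} {k : Cmd}
    (hk : M[c.1]? = some k) : N.next (d + c.1, c.2) = (d + (M.next c).1, (M.next c).2) := by
  obtain ⟨q, x, y⟩ := c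
  have h1 := hN q k hk
  simp only at hk
  simp only [Mach.next, h1, hk]
  cases k with
  | push r b q' => cases r <;> rfl
  | pop r q0 q1 qe =>
    cases r
    · cases x with
      | nil => rfl
      | cons b x => cases b <;> rfl
    · cases y with
      | nil => rfl
      | cons b y => cases b <;> rfl
  | halt b => rfl

theorem iter_none {M : Mach} {c : Cfg} (hc : M[c.1]? = none) (t : ℕ) : (M.next)^[t] c = c := by
  have h1 : M.next c = c := by
    obtain ⟨q, x, y⟩ := c
    simp only at hc
    simp only [Mach.next, hc]
  induction t with
  | zero => rfl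
  | succ t ih => rw [iterate_succ_apply, h1, ih]

theorem iter_shift {M N : Mach} {d : ℕ}
    (hN : ∀ i k, M[i]? = some k → N[d + i]? = some (shiftC d k)) {c : Cfg} {t : ℕ} {k : Cmd}
    (hk : M[((M.next)^[t] c).1]? = some k) :
    (N.next)^[t] (d + c.1, c.2) = (d + ((M.next)^[t] c).1, ((M.next)^[t] c).2) := by
  have key : ∀ s ≤ t, (N.next)^[s] (d + c.1, c.2) =
      (d + ((M.next)^[s] c).1, ((M.next)^[s] c).2) := by
    intro s
    induction s with
    | zero => intro _; rfl
    | succ s ih =>
      intro hs
      rw [iterate_succ_apply', iterate_succ_apply', ih (by omega)]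
      cases h : M[((M.next)^[s] c).1]? with
      | none =>
        exfalso
        have h2 : (M.next)^[t] c = (M.next)^[s] c := by
          have h3 : t = (t - s) + s := by omega
          rw [h3, iterate_add_apply, iter_none h]
        rw [h2, h] at hk
        exact absurd hk (by simp)
      | some k' => exact next_shift hN h
  exact key t le_rfl

/-- The machine that removes the first answer and continues with one of two machines. -/
def firstM (M0 M1 : Mach) : Mach :=
  [.pop false 1 2 20, .pop false 3 20 20, .pop false 5 4 20, .push true false 0,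
    .push true true 0, .pop false 6 7 20, .push false false 8, .push false false 9,
    .push false true 10, .push false true 15, .pop true 11 12 21, .push false false 13,
    .push false true 14, .push false false 10, .push false true 10,
    .pop true 16 17 (21 + M0.length), .push false false 18,
    .push false true 19, .push false false 15, .push false true 15, .halt false] ++
    (M0.map (shiftC 21) ++ M1.map (shiftC (21 + M0.length)))

theorem firstM_get0 (M0 M1 : Mach) (i : ℕ) (k : Cmd) (h : M0[i]? = some k) :
    (firstM M0 M1)[21 + i]? = some (shiftC 21 k) := by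
  have hi : i < M0.length := (List.getElem?_eq_some_iff.1 h).1
  unfold firstM
  rw [List.getElem?_append_right (by simp), List.getElem?_append_left (by simpa using hi)]
  simp [h]

theorem firstM_get1 (M0 M1 : Mach) (i : ℕ) (k : Cmd) (h : M1[i]? = some k) :
    (firstM M0 M1)[21 + M0.length + i]? = some (shiftC (21 + M0.length) k) := by
  unfold firstM
  rw [List.getElem?_append_right (by simp; omega), List.getElem?_append_right (by simp; omega)]
  have : 21 + M0.length + i - 21 - M0.length = i := by omega
  simp [this, h]

/-- Doubled words. -/
def dbl (x : List Bool) : List Bool := x.flatMap fun b => [b, b]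

theorem dbl_cons (b : Bool) (x : List Bool) : dbl (b :: x) = b :: b :: dbl x := rfl

theorem dbl_append (x y : List Bool) : dbl (x ++ y) = dbl x ++ dbl y := by
  unfold dbl; rw [List.flatMap_append]

variable (M0 M1 : Mach)

theorem first_pair (b : Bool) (u y : List Bool) :
    ((firstM M0 M1).next)^[3] (0, b :: b :: u, y) = (0, u, b :: y) := by
  cases b <;> rfl

theorem first_scan (x y : List Bool) (b : Bool) (α : List Bool) :
    ((firstM M0 M1).next)^[3 * x.length + 5] (0, pair x (b :: α), y) =
      (cond b 15 10, true :: false :: α, x.reverse ++ y) := by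
  induction x generalizing y with
  | nil => cases b <;> rfl
  | cons a x ih =>
    have h1 : pair (a :: x) (b :: α) = a :: a :: pair x (b :: α) := rfl
    rw [h1, show 3 * (a :: x).length + 5 = (3 * x.length + 5) + 3 by rw [List.length_cons]; ring,
      iterate_add_apply, first_pair, ih]
    simp

theorem first_bad (u : List Bool) : (∃ x b α, u = pair x (b :: α)) ∨
    ∀ y, ∃ t ≤ 3 * u.length + 3, (((firstM M0 M1).next)^[t] (0, u, y)).1 = 20 := by
  induction hn : u.length using Nat.strong_induction_on generalizing u with
  | _ n ih =>
    match u, hn with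
    | [], _ => exact Or.inr fun y => ⟨1, by omega, rfl⟩
    | [a], _ => cases a <;> exact Or.inr fun y => ⟨2, by omega, rfl⟩
    | a :: b :: u, hn =>
      have h0 : (a :: b :: u).length = u.length + 2 := rfl
      by_cases hab : a = b
      · subst hab
        rcases ih u.length (by omega) u rfl with ⟨x, b, α, hu⟩ | h
        · left
          exact ⟨a :: x, b, α, by rw [hu]; rfl⟩
        · right
          intro y
          obtain ⟨t, ht, h2⟩ := h (a :: y)
          refine ⟨t + 3, by omega, ?_⟩
          rw [iterate_add_apply, first_pair]
          exact h2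
      · cases a with
        | false =>
          cases b with
          | false => exact absurd rfl hab
          | true => exact Or.inr fun y => ⟨2, by omega, rfl⟩
        | true =>
          cases b with
          | true => exact absurd rfl hab
          | false =>
            match u with
            | [] => exact Or.inr fun y => ⟨3, by omega, rfl⟩
            | b :: α => exact Or.inl ⟨[], b, α, rfl⟩

theorem first_restore0 (w z : List Bool) :
    ((firstM M0 M1).next)^[3 * z.length + 1] (10, w, z) = (21, dbl z.reverse ++ w, []) := by
  induction z generalizing w with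
  | nil => rfl
  | cons b z ih =>
    have h1 : ((firstM M0 M1).next)^[3] (10, w, b :: z) = (10, b :: b :: w, z) := by
      cases b <;> rfl
    rw [show 3 * (b :: z).length + 1 = (3 * z.length + 1) + 3 by rw [List.length_cons]; ring,
      iterate_add_apply, h1, ih, List.reverse_cons, dbl_append]
    simp [dbl]

theorem first_restore1 (w z : List Bool) :
    ((firstM M0 M1).next)^[3 * z.length + 1] (15, w, z) =
      (21 + M0.length, dbl z.reverse ++ w, []) := by
  induction z generalizing w with
  | nil => rfl
  | cons b z ih =>
    have h1 : ((firstM M0 M1).next)^[3] (15, w, b :: z) = (15, b :: b :: w, z) := by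
      cases b <;> rfl
    rw [show 3 * (b :: z).length + 1 = (3 * z.length + 1) + 3 by rw [List.length_cons]; ring,
      iterate_add_apply, h1, ih, List.reverse_cons, dbl_append]
    simp [dbl]

/-- The machine on a pair. -/
theorem first_run (x : List Bool) (b : Bool) (α : List Bool) {t : ℕ} {v : Bool}
    (h : (cond b M1 M0)[((cond b M1 M0).run (pair x α) t).1]? = some (.halt v)) :
    (firstM M0 M1)[((firstM M0 M1).run (pair x (b :: α)) (6 * x.length + 6 + t)).1]? =
      some (.halt v) := by
  have h1 : (firstM M0 M1).run (pair x (b :: α)) (6 * x.length + 6 + t) =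
      ((firstM M0 M1).next)^[t] ((cond b (21 + M0.length) 21), pair x α, []) := by
    unfold Mach.run
    rw [show 6 * x.length + 6 + t = t + ((3 * x.length + 1) + (3 * x.length + 5)) by ring,
      iterate_add_apply, iterate_add_apply, first_scan]
    congr 1
    have h2 : pair x α = dbl x ++ true :: false :: α := by simp [pair, dbl]
    cases b
    · have := first_restore0 M0 M1 (true :: false :: α) x.reverse
      rw [List.length_reverse, List.reverse_reverse] at this
      rw [List.append_nil, h2]
      exact this
    · have := first_restore1 M0 M1 (true :: false :: α) x.reverse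
      rw [List.length_reverse, List.reverse_reverse] at this
      rw [List.append_nil, h2]
      exact this
  rw [h1]
  cases b
  · have h3 := iter_shift (firstM_get0 M0 M1) (c := (0, pair x α, [])) (t := t) h
    rw [show (cond false (21 + M0.length) 21, pair x α, []) =
      ((21 + (0 : ℕ), (pair x α, [])) : Cfg) from rfl, h3]
    exact firstM_get0 M0 M1 _ _ h
  · have h3 := iter_shift (firstM_get1 M0 M1) (c := (0, pair x α, [])) (t := t) h
    rw [show (cond true (21 + M0.length) 21, pair x α, []) =
      ((21 + M0.length + (0 : ℕ), (pair x α, [])) : Cfg) from rfl, h3]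
    exact firstM_get1 M0 M1 _ _ h

theorem ptime_first {G0 G1 : Lang} (h0 : G0 ∈ PTime) (h1 : G1 ∈ PTime) :
    ∃ G ∈ PTime, ∀ (x : List Bool) (b : Bool) (α : List Bool),
      pair x (b :: α) ∈ G ↔ pair x α ∈ cond b G1 G0 := by
  obtain ⟨M0, c0, h0⟩ := h0
  obtain ⟨M1, c1, h1⟩ := h1
  refine ⟨{u | ∃ x b α, u = pair x (b :: α) ∧ pair x α ∈ cond b G1 G0}, ?_, fun x b α => ?_⟩
  · have hpoly : PolyB fun n => 6 * n + 6 + (n ^ c0 + c0) + (n ^ c1 + c1) :=
      ((((PolyB.const 6).mul PolyB.id).add (PolyB.const 6)).add (PolyB.id.comp_pow c0)).add
        (PolyB.id.comp_pow c1)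
    obtain ⟨c, hc⟩ := hpoly
    refine ⟨firstM M0 M1, c, fun u => ?_⟩
    have hcu := hc u.length
    simp only at hcu
    by_cases hu : ∃ x b α, u = pair x (b :: α)
    · obtain ⟨x, b, α, rfl⟩ := hu
      have hlen : (pair x α).length ≤ (pair x (b :: α)).length := by
        rw [length_pair, length_pair, List.length_cons]; omega
      have hx : x.length ≤ (pair x (b :: α)).length := by rw [length_pair]; omega
      have key : ∃ t ≤ ((pair x (b :: α)).length ^ c0 + c0) + ((pair x (b :: α)).length ^ c1 + c1),
          ∃ v, (cond b M1 M0)[((cond b M1 M0).run (pair x α) t).1]? = some (.halt v) ∧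
            (v = true ↔ pair x α ∈ cond b G1 G0) := by
        cases b
        · obtain ⟨t, ht, v, h2, h3⟩ := h0 (pair x α)
          refine ⟨t, ?_, v, h2, h3⟩
          have := Nat.pow_le_pow_left hlen c0
          omega
        · obtain ⟨t, ht, v, h2, h3⟩ := h1 (pair x α)
          refine ⟨t, ?_, v, h2, h3⟩
          have := Nat.pow_le_pow_left hlen c1
          omega
      obtain ⟨t, ht, v, h2, h3⟩ := key
      refine ⟨6 * x.length + 6 + t, by omega, v, first_run M0 M1 x b α h2, ?_⟩
      rw [h3]
      constructor
      · intro h4
        exact ⟨x, b, α, rfl, h4⟩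
      · rintro ⟨x', b', α', h4, h5⟩
        obtain ⟨rfl, h6⟩ := pair_injective h4
        obtain ⟨rfl, rfl⟩ := List.cons_eq_cons.1 h6
        exact h5
    · rcases first_bad M0 M1 u with h | h
      · exact absurd h hu
      · obtain ⟨t, ht, h2⟩ := h []
        refine ⟨t, by omega, false, ?_, ?_⟩
        · unfold Mach.run
          rw [h2]
          rfl
        · constructor
          · intro h3
            exact absurd h3 (by simp)
          · rintro ⟨x, b, α, h3, -⟩
            exact absurd ⟨x, b, α, h3⟩ hu
  · constructor
    · rintro ⟨x', b', α', h4, h5⟩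
      obtain ⟨rfl, h6⟩ := pair_injective h4
      obtain ⟨rfl, rfl⟩ := List.cons_eq_cons.1 h6
      exact h5
    · intro h4
      exact ⟨x, b, α, rfl, h4⟩

end Pool.Agent.LibScale55
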