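import Pool.Agent.LibDual85.KProt
import Pool.Agent.LibQry85.Defs

/-! Protocols with questions and verdict in the class. -/

namespace Pool.Agent.LibScale55

open Function Pool.Agent.LibNexp Pool.Agent.LibBHN Pool.Agent.LibDual85 Pool.Agent.LibQry85

variable {O : List Bool → Bool}

theorem kans_id (F : Lang) (x : List Bool) (i : ℕ) : kans F (fun β => β) x i = ans F x i := by
  induction i with
  | zero => rfl
  | succ i ih => rw [kans, ans, ih]

/-- Languages of protocols with the last answer as output. -/
def Can (O : List Bool → Bool) (r : ℕ → ℕ) : Set Lang :=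
  {L | ∃ D ∈ NEXPLang O, L = {x | (ans D x (r x.length + 1)).getLast? = some true}}

/-- A protocol with questions `F` and verdict `G`. -/
def KP (F G : Lang) (r : ℕ → ℕ) (L : Lang) : Prop :=
  ∀ x, x ∈ L ↔ pair x (ans F x (r x.length)) ∈ G

theorem kp_of_pqueryF {r : ℕ → ℕ} {L : Lang} (hL : L ∈ PQueryF (NEXPLang O) r) :
    ∃ F ∈ NEXPLang O, ∃ G : Lang, G ∈ NEXPLang O ∧ Gᶜ ∈ NEXPLang O ∧ KP F G r L := by
  obtain ⟨F, hF, G, hG, hG', h⟩ := kprot_of_pqueryF hL
  refine ⟨F, hF, G, hG, hG', fun x => ?_⟩
  rw [h x, kans_id]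

private theorem prot_lenLt {r : ℕ → ℕ} (hr : Constr O r) (hrp : PolyB r) :
    NEXP O fun e : Fin 2 → List Bool => (e 1).length < r (e 0).length := by
  obtain ⟨c, hc⟩ := hrp
  have h1 : NEXP O fun e : Fin 4 → List Bool => (e 2).length = r (e 0).length ∧
      (e 3).length = 1 * (e 1).length + 1 ∧ (e 3).length ≤ (e 2).length :=
    (hr.nexp 0 2).and ((nexp_lin 1 1 1 3).and (nexp_lenLe 3 2))
  have h2 := nexp_exN (k := 2) (m := 2) (R := fun e z => (z 0).length = r (e 0).length ∧
      (z 1).length = 1 * (e 1).length + 1 ∧ (z 1).length ≤ (z 0).length) h1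
    (g := fun n => n ^ c + c) (PolyB.id.comp_pow c)
    (fun m n h => Nat.add_le_add_right (Nat.pow_le_pow_left h c) c) (by
      rintro e z ⟨h3, h4, h5⟩ j
      have l0 := len_le_size e 0
      have b1 : r (e 0).length ≤ size e ^ c + c :=
        (hc _).trans (Nat.add_le_add_right (Nat.pow_le_pow_left l0 c) c)
      show _ ≤ size e ^ c + c
      fin_cases j
      · show (z 0).length ≤ _; omega
      · show (z 1).length ≤ _; omega)
  refine h2.congr fun e => ?_
  constructor
  · rintro ⟨z, h3, h4, h5⟩
    omega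
  · intro h3
    refine ⟨![List.replicate (r (e 0).length) true,
      List.replicate ((e 1).length + 1) true], ?_, ?_, ?_⟩
    · show (List.replicate (r (e 0).length) true).length = _
      rw [List.length_replicate]
    · show (List.replicate ((e 1).length + 1) true).length = _
      rw [List.length_replicate, one_mul]
    · show (List.replicate ((e 1).length + 1) true).length ≤
        (List.replicate (r (e 0).length) true).length
      rw [List.length_replicate, List.length_replicate]
      exact h3

/-- The queries of a protocol, with the final question for all longer words. -/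
private def ProtQ (r : ℕ → ℕ) (F G : Lang) (x α : List Bool) : Prop :=
  (α.length < r x.length ∧ pair x α ∈ F) ∨
    ∃ β γ, α = β ++ γ ∧ β.length = r x.length ∧ pair x β ∈ G

private theorem prot_nexp {r : ℕ → ℕ} (hr : Constr O r) (hrp : PolyB r) {F G : Lang}
    (hF : F ∈ NEXPLang O) (hG : G ∈ NEXPLang O) :
    NEXP O fun e : Fin 2 → List Bool => ProtQ r F G (e 0) (e 1) := by
  have h1 : NEXP O fun e : Fin 4 → List Bool => e 1 = e 2 ++ e 3 ∧
      (e 2).length = r (e 0).length ∧ pair (e 0) (e 2) ∈ G :=
    (nexp_append 2 3 1).and ((hr.nexp 0 2).and (nexp_pair_mem hG 0 2))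
  have h2 := nexp_exN (k := 2) (m := 2) (R := fun e z => e 1 = z 0 ++ z 1 ∧
      (z 0).length = r (e 0).length ∧ pair (e 0) (z 0) ∈ G) h1
    (g := fun n => n) PolyB.id monotone_id (by
      rintro e z ⟨h3, -⟩ j
      have l1 := len_le_size e 1
      have b1 := congrArg List.length h3
      rw [List.length_append] at b1
      show _ ≤ size e
      fin_cases j
      · show (z 0).length ≤ _; omega
      · show (z 1).length ≤ _; omega)
  refine (((prot_lenLt hr hrp).and (nexp_pair_mem hF 0 1)).or h2).congr fun e => ?_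
  unfold ProtQ
  constructor
  · rintro (h3 | ⟨z, h3⟩)
    · exact Or.inl h3
    · exact Or.inr ⟨z 0, z 1, h3⟩
  · rintro (h3 | ⟨β, γ, h3⟩)
    · exact Or.inl h3
    · exact Or.inr ⟨![β, γ], h3⟩

private theorem prot_prefix (C : Lang) (x : List Bool) (l : ℕ) : ∀ i, l ≤ i →
    ∃ γ, ans C x i = ans C x l ++ γ := by
  classical
  intro i
  induction i with
  | zero =>
    intro h
    have : l = 0 := by omega
    subst this
    exact ⟨[], by simp⟩
  | succ i ih =>
    intro h
    rcases Nat.lt_or_ge i l with h1 | h1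
    · have : l = i + 1 := by omega
      subst this
      exact ⟨[], by simp⟩
    · obtain ⟨γ, hγ⟩ := ih h1
      exact ⟨γ ++ [decide (pair x (ans C x i) ∈ C)], by
        rw [ans, ← List.append_assoc, ← hγ]⟩

/-- A language whose questions agree with `ProtQ` on `x` runs the protocol. -/
private theorem prot_run {r : ℕ → ℕ} {F G C : Lang} {x : List Bool}
    (h : ∀ α, pair x α ∈ C ↔ ProtQ r F G x α) {i : ℕ} (hi : r x.length ≤ i) :
    pair x (ans C x i) ∈ C ↔ pair x (ans F x (r x.length)) ∈ G := by
  classical
  have h1 : ∀ j ≤ r x.length, ans C x j = ans F x j := by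
    intro j
    induction j with
    | zero => intro _; rfl
    | succ j ih =>
      intro hj
      have h2 := ih (by omega)
      have h3 : pair x (ans C x j) ∈ C ↔ pair x (ans F x j) ∈ F := by
        rw [h, ← h2]
        constructor
        · rintro (⟨-, h4⟩ | ⟨β, γ, h4, h5, -⟩)
          · exact h4
          · exfalso
            have h6 := congrArg List.length h4
            rw [List.length_append, length_ans] at h6
            omega
        · intro h4
          exact Or.inl ⟨by rw [length_ans]; omega, h4⟩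
      rw [ans, ans]
      simp only [h3]
      rw [h2]
  obtain ⟨γ, hγ⟩ := prot_prefix C x _ i hi
  rw [h1 _ le_rfl] at hγ
  rw [h]
  constructor
  · rintro (⟨h4, -⟩ | ⟨β, γ', h4, h5, h6⟩)
    · exfalso
      rw [length_ans] at h4
      omega
    · rw [hγ] at h4
      obtain ⟨h7, -⟩ := List.append_inj h4 (by rw [length_ans, h5])
      rw [h7]
      exact h6
  · intro h4
    exact Or.inr ⟨_, γ, hγ, length_ans .., h4⟩

theorem can_of_kp {r : ℕ → ℕ} (hr : Constr O r) (hrp : PolyB r) {F G : Lang}
    (hF : F ∈ NEXPLang O) (hG : G ∈ NEXPLang O) {L : Lang} (h : KP F G r L) : L ∈ Can O r := by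
  obtain ⟨D, hD, hDR⟩ := rel_of_nexp (C := ProtQ r F G) (prot_nexp hr hrp hF hG)
  refine ⟨D, hD, ?_⟩
  ext x
  rw [Set.mem_ofPred_eq, ans, List.getLast?_append]
  simp only [List.getLast?_singleton, Option.some_or, Option.some.injEq, decide_eq_true_eq]
  rw [h x, prot_run (hDR x) le_rfl]

theorem can_subset (r : ℕ → ℕ) : Can O r ⊆ PQueryF (NEXPLang O) fun n => r n + 1 := by
  rintro L ⟨D, hD, rfl⟩
  exact pqueryF_of_protocol hD r

theorem subset_can {r : ℕ → ℕ} (hr : Constr O r) (hrp : PolyB r) :
    PQueryF (NEXPLang O) r ⊆ Can O r := by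
  intro L hL
  obtain ⟨F, hF, G, hG, -, h⟩ := kp_of_pqueryF hL
  exact can_of_kp hr hrp hF hG h

end Pool.Agent.LibScale55
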