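import Pool.Agent.LibQry85.Lin
import Pool.Agent.LibScale55.MachB
import Pool.Agent.LibScale55.Prot

/-! One more query is useless: then all constant numbers of further queries are. -/

namespace Pool.Agent.LibScale55

open Function Pool.Agent.LibNexp Pool.Agent.LibBHN Pool.Agent.LibDual85 Pool.Agent.LibQry85

variable {O : List Bool → Bool}

theorem nexp_cons (b : Bool) {k : ℕ} (i j : Fin k) :
    NEXP O fun e : Fin k → List Bool => e j = b :: e i := by
  refine ((nexp_subst (O := O) (fun _ => []) (fun b => [b]) [b]).reindex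
    ![i, i, j]).congr fun e => ?_
  have h1 : (e i).flatMap (fun _ => ([] : List Bool)) = [] := by simp
  simp only [Matrix.cons_val_zero, Matrix.cons_val_one, Matrix.cons_val, h1]
  simp

/-- The question after a first answer. -/
theorem nexp_after {F : Lang} (hF : F ∈ NEXPLang O) (b : Bool) :
    NEXP O fun e : Fin 2 → List Bool => ∃ α, e 1 = b :: α ∧ pair (e 0) α ∈ F := by
  have h1 : NEXP O fun e : Fin 3 → List Bool => e 1 = b :: e 2 ∧ pair (e 0) (e 2) ∈ F :=
    (nexp_cons b 2 1).and (nexp_pair_mem hF 0 2)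
  refine nexp_ex (R := fun (e : Fin 2 → List Bool) z => e 1 = b :: z ∧ pair (e 0) z ∈ F) h1
    (g := fun n => n) PolyB.id ?_
  rintro e z ⟨h2, -⟩
  have h3 := len_le_size e 1
  rw [h2, List.length_cons] at h3
  show _ ≤ size e
  omega

/-- The questions with a fixed first answer. -/
theorem nexp_fix {F : Lang} (hF : F ∈ NEXPLang O) (b : Bool) :
    NEXP O fun e : Fin 2 → List Bool => pair (e 0) (b :: e 1) ∈ F := by
  have h1 : NEXP O fun e : Fin 3 → List Bool => e 2 = b :: e 1 ∧ pair (e 0) (e 2) ∈ F :=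
    (nexp_cons b 1 2).and (nexp_pair_mem hF 0 2)
  have h2 := nexp_ex (R := fun (e : Fin 2 → List Bool) z => z = b :: e 1 ∧ pair (e 0) z ∈ F) h1
    (g := fun n => n + 1) (PolyB.id.add (PolyB.const 1)) (by
      rintro e z ⟨h2, -⟩
      have h3 := len_le_size e 1
      rw [h2, List.length_cons]
      show _ ≤ size e + 1
      omega)
  refine h2.congr fun e => ?_
  simp

theorem pre_nexp {f : List Bool → List Bool} (hf : f ∈ FPTime) {A : Lang}
    (hA : A ∈ NEXPLang O) : {u : List Bool | f u ∈ A} ∈ NEXPLang O := by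
  obtain ⟨K, hK⟩ := fp_length hf
  have h0 : NEXP O fun e : Fin 2 → List Bool => e 1 = f (e 0) ∧ e 1 ∈ A :=
    (nexp_fp hf).and (nexp_mem hA 1)
  have h1 := nexp_ex (R := fun (e : Fin 1 → List Bool) z => z = f (e 0) ∧ z ∈ A) h0
    (g := fun n => n ^ K + K) (PolyB.id.comp_pow K) (by
      rintro e z ⟨rfl, _⟩
      have h2 := hK (e 0)
      have := Nat.pow_le_pow_left (len_le_size e 0) K
      show _ ≤ size e ^ K + K
      omega)
  refine h1.congr fun e => ?_
  simp

/-- Questions in the class, verdict in polynomial time. -/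
theorem exists_protocol {r : ℕ → ℕ} {L : Lang} (hL : L ∈ PQueryF (NEXPLang O) r) :
    ∃ F ∈ NEXPLang O, ∃ G ∈ PTime, KP F G r L := by
  obtain ⟨A, hA, f, hf, G, hG, h⟩ := hL
  refine ⟨{u : List Bool | f u ∈ A}, pre_nexp hf hA, G, hG, fun x => ?_⟩
  have key : ∀ i, ans {u : List Bool | f u ∈ A} x i = answers f A x i := by
    intro i
    induction i with
    | zero => rfl
    | succ i ih =>
      rw [ans, answers, ih]
      rfl
  rw [key, h x]

theorem of_protocol {r : ℕ → ℕ} {L F G : Lang} (hF : F ∈ NEXPLang O) (hG : G ∈ PTime)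
    (h : KP F G r L) : L ∈ PQueryF (NEXPLang O) r := by
  refine ⟨F, hF, fun x => x, id_mem, G, hG, fun x => ?_⟩
  have key : ∀ i, answers (fun x => x) F x i = ans F x i := by
    intro i
    induction i with
    | zero => rfl
    | succ i ih => rw [answers, ans, ih]
  rw [key, h x]

/-- The first answer and the rest. -/
theorem ans_first {C F : Lang} {x : List Bool} {b : Bool} (h0 : pair x [] ∈ C ↔ b = true)
    (h : ∀ α, pair x (b :: α) ∈ C ↔ pair x α ∈ F) (i : ℕ) :
    ans C x (i + 1) = b :: ans F x i := by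
  induction i with
  | zero =>
    rw [ans, ans, ans]
    simp only [h0, List.nil_append, Bool.decide_eq_true]
  | succ i ih =>
    rw [ans, ih, ans, List.cons_append]
    congr 3
    exact decide_eq_decide.2 (h _)

/-- One question and two protocols. -/
theorem combine {r : ℕ → ℕ} {K L0 L1 : Lang} (hK : K ∈ NEXPLang O)
    (h0 : L0 ∈ PQueryF (NEXPLang O) r) (h1 : L1 ∈ PQueryF (NEXPLang O) r) :
    {x | (x ∈ K ∧ x ∈ L1) ∨ (x ∉ K ∧ x ∈ L0)} ∈ PQueryF (NEXPLang O) fun n => r n + 1 := by
  classical
  obtain ⟨F0, hF0, G0, hG0, h0⟩ := exists_protocol h0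
  obtain ⟨F1, hF1, G1, hG1, h1⟩ := exists_protocol h1
  obtain ⟨G, hG, hGG⟩ := ptime_first hG0 hG1
  obtain ⟨C, hC, hCR⟩ := rel_of_nexp (O := O) (C := fun x α => (α = [] ∧ x ∈ K) ∨
    ((∃ β, α = false :: β ∧ pair x β ∈ F0) ∨ ∃ β, α = true :: β ∧ pair x β ∈ F1))
    (((nexp_const [] 1).and (nexp_mem hK 0)).or ((nexp_after hF0 false).or (nexp_after hF1 true)))
  refine of_protocol hC hG fun x => ?_
  have hn : pair x [] ∈ C ↔ decide (x ∈ K) = true := by
    rw [hCR, decide_eq_true_eq]
    simp
  show _ ↔ pair x (ans C x (r x.length + 1)) ∈ G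
  rw [Set.mem_ofPred_eq]
  by_cases hx : x ∈ K
  · rw [decide_eq_true hx] at hn
    rw [ans_first hn (F := F1) (fun α => by rw [hCR]; simp), hGG, h1 x]
    simp [hx]
  · rw [decide_eq_false hx] at hn
    rw [ans_first hn (F := F0) (fun α => by rw [hCR]; simp), hGG, h0 x]
    simp [hx]

theorem can_down {r : ℕ → ℕ} (h : PQueryF (NEXPLang O) (fun n => r n + 1) ⊆
    PQueryF (NEXPLang O) r) (c : ℕ) : Can O (fun n => r n + c) ⊆ PQueryF (NEXPLang O) r := by
  classical
  induction c with
  | zero => exact (can_subset r).trans h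
  | succ c ih =>
    rintro L ⟨D, hD, rfl⟩
    obtain ⟨D0, hD0, h0⟩ := rel_of_nexp (O := O) (C := fun x α => pair x (false :: α) ∈ D) (nexp_fix hD false)
    obtain ⟨D1, hD1, h1⟩ := rel_of_nexp (O := O) (C := fun x α => pair x (true :: α) ∈ D) (nexp_fix hD true)
    have hK : {x | pair x [] ∈ D} ∈ NEXPLang O := by
      have h2 : NEXP O fun e : Fin 2 → List Bool => e 1 = [] ∧ pair (e 0) (e 1) ∈ D :=
        (nexp_const [] 1).and (nexp_pair_mem hD 0 1)
      refine (nexp_ex (R := fun (e : Fin 1 → List Bool) z => z = [] ∧ pair (e 0) z ∈ D) h2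
        (g := fun n => n) PolyB.id ?_).congr fun e => ?_
      · rintro e z ⟨rfl, -⟩
        exact Nat.zero_le _
      · simp
    have key := combine hK (ih ⟨D0, hD0, rfl⟩) (ih ⟨D1, hD1, rfl⟩)
    have h3 := h key
    have e1 : {x | (ans D x (r x.length + (c + 1) + 1)).getLast? = some true} =
        {x | (x ∈ {x | pair x [] ∈ D} ∧
          x ∈ {x | (ans D1 x (r x.length + c + 1)).getLast? = some true}) ∨
          (x ∉ {x | pair x [] ∈ D} ∧
          x ∈ {x | (ans D0 x (r x.length + c + 1)).getLast? = some true})} := by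
      ext x
      simp only [Set.mem_ofPred_eq]
      rw [show r x.length + (c + 1) + 1 = (r x.length + c + 1) + 1 by ring]
      have hlast : ∀ (b : Bool) (F : Lang),
          (b :: ans F x (r x.length + c + 1)).getLast? =
            (ans F x (r x.length + c + 1)).getLast? := by
        intro b F
        rw [ans, ← List.cons_append, List.getLast?_concat, List.getLast?_concat]
      by_cases hx : pair x [] ∈ D
      · rw [ans_first (b := true) (by simpa using hx) (fun α => (h1 x α).symm), hlast]
        simp [hx]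
      · rw [ans_first (b := false) (by simpa using hx) (fun α => (h0 x α).symm), hlast]
        simp [hx]
    rw [e1]
    exact h3

theorem down {r : ℕ → ℕ} (hr : Constr O r) (hrp : PolyB r)
    (h : PQueryF (NEXPLang O) (fun n => r n + 1) ⊆ PQueryF (NEXPLang O) r) (c : ℕ) :
    PQueryF (NEXPLang O) (fun n => r n + c) ⊆ PQueryF (NEXPLang O) r := by
  have h1 : Constr O fun n => r n + c := by
    have := hr.lin hrp 1 c
    simpa using this
  exact (subset_can h1 (hrp.add (PolyB.const c))).trans (can_down h c)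

end Pool.Agent.LibScale55
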