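import Pool.Agent.LibScale55.Prot

/-! The smaller of two numbers of queries. -/

namespace Pool.Agent.LibScale55

open Function Pool.Agent.LibNexp Pool.Agent.LibBHN Pool.Agent.LibDual85 Pool.Agent.LibQry85

variable {O : List Bool → Bool}

/-- Comparison of functions of the length. -/
theorem nexp_cmp {r s : ℕ → ℕ} (hr : Constr O r) (hrp : PolyB r) (hs : Constr O s)
    (hsp : PolyB s) (a : ℕ) {k : ℕ} (i : Fin k) :
    NEXP O fun e : Fin k → List Bool => r (e i).length + a ≤ s (e i).length := by
  have h0 : NEXP O fun e : Fin 1 → List Bool => r (e 0).length + a ≤ s (e 0).length := by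
    obtain ⟨c, hc⟩ := hrp
    obtain ⟨d, hd⟩ := hsp
    have h1 : NEXP O fun e : Fin 4 → List Bool => (e 1).length = r (e 0).length ∧
        (e 2).length = s (e 0).length ∧ (e 3).length = 1 * (e 1).length + a ∧
        (e 3).length ≤ (e 2).length :=
      (hr.nexp 0 1).and ((hs.nexp 0 2).and ((nexp_lin 1 a 1 3).and (nexp_lenLe 3 2)))
    have h2 := nexp_exN (k := 1) (m := 3) (R := fun e z => (z 0).length = r (e 0).length ∧
        (z 1).length = s (e 0).length ∧ (z 2).length = 1 * (z 0).length + a ∧
        (z 2).length ≤ (z 1).length) h1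
      (g := fun n => (n ^ c + c) + (n ^ d + d)) ((PolyB.id.comp_pow c).add (PolyB.id.comp_pow d))
      (fun m n h => Nat.add_le_add (Nat.add_le_add_right (Nat.pow_le_pow_left h c) c)
        (Nat.add_le_add_right (Nat.pow_le_pow_left h d) d)) (by
        rintro e z ⟨h3, h4, h5, h6⟩ j
        have l0 := len_le_size e 0
        have b1 : r (e 0).length ≤ size e ^ c + c :=
          (hc _).trans (Nat.add_le_add_right (Nat.pow_le_pow_left l0 c) c)
        have b2 : s (e 0).length ≤ size e ^ d + d :=
          (hd _).trans (Nat.add_le_add_right (Nat.pow_le_pow_left l0 d) d)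
        show _ ≤ (size e ^ c + c) + (size e ^ d + d)
        fin_cases j
        · show (z 0).length ≤ _; omega
        · show (z 1).length ≤ _; omega
        · show (z 2).length ≤ _; omega)
    refine h2.congr fun e => ?_
    constructor
    · rintro ⟨z, h3, h4, h5, h6⟩
      omega
    · intro h3
      refine ⟨![ones (r (e 0).length), ones (s (e 0).length), ones (r (e 0).length + a)],
        ?_, ?_, ?_, ?_⟩
      · simp
      · simp
      · simp
      · simpa using h3
  exact (h0.reindex fun _ => i).congr fun e => Iff.rfl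

theorem constr_min {r s : ℕ → ℕ} (hr : Constr O r) (hrp : PolyB r) (hs : Constr O s)
    (hsp : PolyB s) : Constr O fun n => min (r n) (s n) := by
  refine constr_of_nexp ((((hr.nexp 0 1).and (nexp_cmp hr hrp hs hsp 0 0)).or
    ((hs.nexp 0 1).and (nexp_cmp hs hsp hr hrp 0 0))).congr fun e => ?_)
  show _ ↔ (e 1).length = min (r (e 0).length) (s (e 0).length)
  omega

theorem pqueryF_min {r s : ℕ → ℕ} (hr : Constr O r) (hrp : PolyB r) (hs : Constr O s)
    (hsp : PolyB s) {L : Lang} (h1 : L ∈ PQueryF (NEXPLang O) r)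
    (h2 : L ∈ PQueryF (NEXPLang O) s) :
    L ∈ PQueryF (NEXPLang O) fun n => min (r n) (s n) + 1 := by
  classical
  obtain ⟨F1, hF1, G1, hG1, -, h1⟩ := kp_of_pqueryF h1
  obtain ⟨F2, hF2, G2, hG2, -, h2⟩ := kp_of_pqueryF h2
  obtain ⟨F, hF, hFR⟩ := rel_of_nexp (O := O) (C := fun x α =>
    (r x.length + 0 ≤ s x.length ∧ pair x α ∈ F1) ∨
      (s x.length + 1 ≤ r x.length ∧ pair x α ∈ F2))
    (((nexp_cmp hr hrp hs hsp 0 0).and (nexp_pair_mem hF1 0 1)).or
      ((nexp_cmp hs hsp hr hrp 1 0).and (nexp_pair_mem hF2 0 1)))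
  obtain ⟨G, hG, hGR⟩ := rel_of_nexp (O := O) (C := fun x α =>
    (r x.length + 0 ≤ s x.length ∧ pair x α ∈ G1) ∨
      (s x.length + 1 ≤ r x.length ∧ pair x α ∈ G2))
    (((nexp_cmp hr hrp hs hsp 0 0).and (nexp_pair_mem hG1 0 1)).or
      ((nexp_cmp hs hsp hr hrp 1 0).and (nexp_pair_mem hG2 0 1)))
  refine can_subset _ (can_of_kp (constr_min hr hrp hs hsp) (hrp.mono fun n => min_le_left _ _)
    hF hG fun x => ?_)
  have key : ∀ {F' : Lang}, (∀ α, pair x α ∈ F ↔ pair x α ∈ F') → ∀ i, ans F x i = ans F' x i := by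
    intro F' h i
    induction i with
    | zero => rfl
    | succ i ih =>
      rw [ans, ans, ih]
      congr 2
      exact decide_eq_decide.2 (h _)
  show x ∈ L ↔ pair x (ans F x (min (r x.length) (s x.length))) ∈ G
  rcases Nat.lt_or_ge (s x.length) (r x.length) with h3 | h3
  · have e1 : ¬ (r x.length + 0 ≤ s x.length) := by omega
    have e2 : s x.length + 1 ≤ r x.length := h3
    rw [key (F' := F2) (fun α => by rw [hFR]; simp only [e1, e2, false_and, true_and, false_or]) _,
      min_eq_right h3.le, h2 x, hGR]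
    simp only [e1, e2, false_and, true_and, false_or]
  · have e1 : r x.length + 0 ≤ s x.length := h3
    have e2 : ¬ (s x.length + 1 ≤ r x.length) := by omega
    rw [key (F' := F1) (fun α => by rw [hFR]; simp only [e1, e2, false_and, true_and, or_false]) _,
      min_eq_left h3, h1 x, hGR]
    simp only [e1, e2, false_and, true_and, or_false]

end Pool.Agent.LibScale55
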