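import Mathlib.Analysis.SpecialFunctions.Pow.NthRootLemmas
import Mathlib.Analysis.SpecificLimits.Normed
import Pool.Agent.LibDual85.Run
import Pool.Agent.LibQry85.Defs
import Pool.Agent.LibSelfLaw.Step

/-! Integer parts of roots. -/

namespace Pool.Agent.LibScale55

open Function Pool.Agent.LibNexp Pool.Agent.LibBHN Pool.Agent.LibDual85 Pool.Agent.LibQry85
  Pool.Agent.LibSelfLaw

variable {O : List Bool → Bool}

private theorem eq_root_iff {K : ℕ} (hK : 1 ≤ K) (t n : ℕ) :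
    t = Nat.nthRoot K n ↔ t ^ K ≤ n ∧ n + 1 ≤ (t + 1) ^ K := by
  have h0 : K ≠ 0 := by omega
  rw [← Nat.le_nthRoot_iff h0, Nat.succ_le_iff, ← Nat.nthRoot_lt_iff h0]
  omega

theorem constr_root (O : List Bool → Bool) {K : ℕ} (hK : 1 ≤ K) : Constr O (Nat.nthRoot K) := by
  have h1 : NEXP O fun e : Fin 6 → List Bool =>
      (e 2).length = (e 1).length ^ K + 0 ∧ (e 3).length = 1 * (e 1).length + 1 ∧
      (e 4).length = (e 3).length ^ K + 0 ∧ (e 5).length = 1 * (e 0).length + 1 ∧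
      (e 2).length ≤ (e 0).length ∧ (e 5).length ≤ (e 4).length :=
    (nexp_powAdd K 0 1 2).and ((nexp_lin 1 1 1 3).and ((nexp_powAdd K 0 3 4).and
      ((nexp_lin 1 1 0 5).and ((nexp_lenLe 2 0).and (nexp_lenLe 5 4)))))
  have h2 := nexp_exN (k := 2) (m := 4) (R := fun (e : Fin 2 → List Bool)
      (z : Fin 4 → List Bool) =>
      (z 0).length = (e 1).length ^ K + 0 ∧ (z 1).length = 1 * (e 1).length + 1 ∧
      (z 2).length = (z 1).length ^ K + 0 ∧ (z 3).length = 1 * (e 0).length + 1 ∧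
      (z 0).length ≤ (e 0).length ∧ (z 3).length ≤ (z 2).length) h1
      (g := fun n => (n + 1) ^ K + (n + 1))
      (((PolyB.id.succ).pow K).add (PolyB.id.succ))
      (fun a b hab => Nat.add_le_add (Nat.pow_le_pow_left (Nat.add_le_add_right hab 1) _)
        (Nat.add_le_add_right hab 1))
      (by
        rintro e z ⟨h3, h4, h5, h6, -, -⟩ i
        have a0 := len_le_size e 0
        have a1 := len_le_size e 1
        have b1 : ((e 1).length + 1) ^ K ≤ (size e + 1) ^ K :=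
          Nat.pow_le_pow_left (by omega) K
        have b2 : (e 1).length ^ K ≤ (size e + 1) ^ K :=
          Nat.pow_le_pow_left (by omega) K
        rw [one_mul] at h4 h6
        rw [h4] at h5
        show _ ≤ (size e + 1) ^ K + (size e + 1)
        fin_cases i
        · show (z 0).length ≤ _; omega
        · show (z 1).length ≤ _; omega
        · show (z 2).length ≤ _; omega
        · show (z 3).length ≤ _; omega)
  refine constr_of_nexp (h2.congr fun e => ?_)
  rw [eq_root_iff hK]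
  constructor
  · rintro ⟨z, h3, h4, h5, h6, h7, h8⟩
    rw [one_mul] at h4 h6
    rw [h4, add_zero] at h5
    rw [h3, add_zero] at h7
    rw [h6, h5] at h8
    exact ⟨h7, h8⟩
  · rintro ⟨h3, h4⟩
    refine ⟨![ones ((e 1).length ^ K), ones ((e 1).length + 1), ones (((e 1).length + 1) ^ K),
      ones ((e 0).length + 1)], ?_⟩
    have ho : ∀ n, (ones n).length = n := fun n => by simp
    simp only [Matrix.cons_val]
    simp only [ho, one_mul, add_zero]
    exact ⟨trivial, trivial, trivial, trivial, h3, h4⟩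

theorem root_le (K : ℕ) (hK : 1 ≤ K) (n : ℕ) : Nat.nthRoot K n ≤ n :=
  (Nat.le_self_pow (by omega) _).trans (Nat.pow_nthRoot_le (Or.inl (by omega)))

theorem root_mono {K : ℕ} (hK : 1 ≤ K) : Monotone (Nat.nthRoot K) := by
  intro a b hab
  have h0 : K ≠ 0 := by omega
  rw [Nat.le_nthRoot_iff h0]
  exact (Nat.pow_nthRoot_le (Or.inl h0)).trans hab

theorem slow_root (O : List Bool → Bool) {K : ℕ} (hK : 1 ≤ K) : Slow O (Nat.nthRoot K) where
  mono := root_mono hK
  lip := fun n => by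
    have h0 : K ≠ 0 := by omega
    rcases Nat.eq_zero_or_pos (Nat.nthRoot K (n + 1)) with h1 | h1
    · omega
    · obtain ⟨t, ht⟩ : ∃ t, Nat.nthRoot K (n + 1) = t + 1 := ⟨Nat.nthRoot K (n + 1) - 1, by omega⟩
      rw [ht]
      apply Nat.add_le_add_right
      rw [Nat.le_nthRoot_iff h0]
      have h2 : (t + 1) ^ K ≤ n + 1 := by
        rw [← ht]
        exact Nat.pow_nthRoot_le (Or.inl h0)
      have h3 : t ^ K < (t + 1) ^ K := Nat.pow_lt_pow_left (Nat.lt_succ_self t) h0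
      omega
  poly := by
    refine ⟨fun m => (m + 1) ^ K, (PolyB.id.succ).pow K,
      fun a b hab => Nat.pow_le_pow_left (Nat.add_le_add_right hab 1) _, fun n => ?_⟩
    exact (Nat.lt_pow_nthRoot_add_one (by omega) n).le
  graph := (constr_root O hK).nexp 0 1

theorem constr_comp {r g : ℕ → ℕ} (hr : Constr O r) (hg : Constr O g) (hgp : PolyB g) :
    Constr O fun n => r (g n) := by
  obtain ⟨a, ha⟩ := hgp
  have h1 : NEXP O fun e : Fin 3 → List Bool => (e 2).length = g (e 0).length ∧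
      (e 1).length = r (e 2).length := (hg.nexp 0 2).and (hr.nexp 2 1)
  have h2 := nexp_ex (R := fun (e : Fin 2 → List Bool) z => z.length = g (e 0).length ∧
      (e 1).length = r z.length) h1 (g := fun n => n ^ a + a) (PolyB.id.comp_pow a) (by
    rintro e z ⟨h3, -⟩
    rw [h3]
    exact (ha _).trans (Nat.add_le_add_right (Nat.pow_le_pow_left (len_le_size e 0) a) a))
  refine constr_of_nexp (h2.congr fun e => ?_)
  constructor
  · rintro ⟨z, h3, h4⟩
    rw [h4, h3]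
  · intro h3
    exact ⟨List.replicate (g (e 0).length) true, by simp, by simpa using h3⟩

/-- Roots of small powers. -/
theorem root_pow (k : ℕ) {d : ℕ} (hd : 1 ≤ d) : ∃ K n0, 1 ≤ K ∧ ∀ n, n0 ≤ n →
    Nat.nthRoot K n ^ k + k ≤ Nat.nthRoot d n := by
  refine ⟨(k + 1) * d, 2 ^ ((k + 1) * d), Nat.mul_pos (Nat.succ_pos k) hd, fun n hn => ?_⟩
  have hK : (k + 1) * d ≠ 0 := (Nat.mul_pos (Nat.succ_pos k) hd).ne'
  obtain ⟨t, ht⟩ : ∃ t, t = Nat.nthRoot ((k + 1) * d) n := ⟨_, rfl⟩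
  rw [← ht]
  have h2 : 2 ≤ t := by rw [ht, Nat.le_nthRoot_iff hK]; exact hn
  have h3 : t ^ ((k + 1) * d) ≤ n := by rw [ht]; exact Nat.pow_nthRoot_le (Or.inl hK)
  rw [Nat.le_nthRoot_iff (by omega)]
  refine le_trans ?_ h3
  rw [pow_mul]
  apply Nat.pow_le_pow_left
  have h4 : k < 2 ^ k := Nat.lt_two_pow_self
  have h5 : 2 ^ k ≤ t ^ k := Nat.pow_le_pow_left h2 k
  rw [pow_succ]
  nlinarith

/-- Small roots of the lengths of padded questions. -/
theorem root_mlen (c : ℕ) {k : ℕ} (hk : 1 ≤ k) : ∃ d n0, 1 ≤ d ∧ ∀ n, n0 ≤ n →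
    Nat.nthRoot d (mlen c n) ≤ Nat.nthRoot k n := by
  refine ⟨k * (c + 2), c + 4, Nat.mul_pos hk (by omega), fun n hn => ?_⟩
  have hK : k * (c + 2) ≠ 0 := (Nat.mul_pos hk (by omega)).ne'
  have h1 : mlen c n ≤ n ^ (c + 2) := by
    unfold mlen
    have h2 : 1 ≤ n ^ c := Nat.one_le_pow _ _ (by omega)
    have h3 : 2 * n + (c + 3) ≤ 3 * n := by omega
    have h4 : 3 * n + 1 ≤ n ^ 2 := by nlinarith
    rw [pow_add]
    nlinarith [Nat.mul_le_mul h2 h4]
  rw [Nat.le_nthRoot_iff (by omega)]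
  obtain ⟨s, hs⟩ : ∃ s, s = Nat.nthRoot (k * (c + 2)) (mlen c n) := ⟨_, rfl⟩
  rw [← hs]
  have h5 : s ^ (k * (c + 2)) ≤ n ^ (c + 2) := by
    rw [hs]
    exact (Nat.pow_nthRoot_le (Or.inl hK)).trans h1
  rw [pow_mul] at h5
  exact (Nat.pow_le_pow_iff_left (by omega)).1 h5

private theorem exp_large (M K : ℕ) : ∃ L0, ∀ L, L0 ≤ L → (M * L) ^ K ≤ 2 ^ L := by
  have h := tendsto_pow_const_div_const_pow_of_one_lt K (r := (2 : ℝ)) (by norm_num)
  have hM : (0 : ℝ) < 1 / ((M : ℝ) ^ K + 1) := by positivity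
  obtain ⟨L0, hL0⟩ := Filter.eventually_atTop.1 (h.eventually_lt_const hM)
  refine ⟨L0, fun L hL => ?_⟩
  have h1 := hL0 L hL
  rw [div_lt_div_iff₀ (by positivity) (by positivity), one_mul] at h1
  have h2 : ((M * L : ℕ) : ℝ) ^ K ≤ 2 ^ L := by
    push_cast
    rw [mul_pow]
    have h3 : 0 ≤ (L : ℝ) ^ K := by positivity
    nlinarith
  exact_mod_cast h2

/-- Roots are larger than logarithms. -/
theorem log_le_root (C D k c : ℕ) {K : ℕ} (hK : 1 ≤ K) : ∃ n0, ∀ n, n0 ≤ n →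
    C * Nat.log 2 (n ^ k + k + 1) + D + c ≤ Nat.nthRoot K n := by
  obtain ⟨L0, hL0⟩ := exp_large (C * (k + 1) * 2 + D + c) K
  refine ⟨2 ^ (L0 + 1) + k + 3, fun n hn => ?_⟩
  have hp : 0 < 2 ^ L0 := by positivity
  have hn0 : n ≠ 0 := by omega
  have hL : L0 + 1 ≤ Nat.log 2 n := by
    apply Nat.le_log_of_pow_le (by norm_num)
    omega
  rw [Nat.le_nthRoot_iff (by omega)]
  refine le_trans ?_ (Nat.pow_log_le_self 2 hn0)
  obtain ⟨L, hLe⟩ : ∃ L, L = Nat.log 2 n := ⟨_, rfl⟩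
  rw [← hLe] at hL ⊢
  have h1 : n ^ k + k + 1 ≤ n ^ (k + 1) := by
    have h2 : 1 ≤ n ^ k := Nat.one_le_pow _ _ (by omega)
    rw [pow_succ]
    calc n ^ k + k + 1 = n ^ k + 1 * (k + 1) := by ring
      _ ≤ n ^ k + n ^ k * (k + 1) := Nat.add_le_add_left (Nat.mul_le_mul_right _ h2) _
      _ = n ^ k * (k + 2) := by ring
      _ ≤ n ^ k * n := Nat.mul_le_mul_left _ (by omega)
  have h2 : n < 2 ^ (L + 1) := by rw [hLe]; exact Nat.lt_pow_succ_log_self (by norm_num) n
  have h3 : Nat.log 2 (n ^ k + k + 1) ≤ (L + 1) * (k + 1) := by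
    calc Nat.log 2 (n ^ k + k + 1) ≤ Nat.log 2 (2 ^ ((L + 1) * (k + 1))) := by
          apply Nat.log_mono_right
          refine h1.trans ?_
          rw [pow_mul]
          exact Nat.pow_le_pow_left h2.le _
      _ = _ := Nat.log_pow (by norm_num) _
  refine le_trans ?_ (hL0 L (by omega))
  apply Nat.pow_le_pow_left
  have h4 : C * Nat.log 2 (n ^ k + k + 1) ≤ C * ((L + 1) * (k + 1)) := Nat.mul_le_mul_left _ h3
  have h5 : L + 1 ≤ 2 * L := by omega
  have h6 : C * ((L + 1) * (k + 1)) ≤ C * (k + 1) * 2 * L := by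
    calc C * ((L + 1) * (k + 1)) ≤ C * ((2 * L) * (k + 1)) := by gcongr
      _ = _ := by ring
  have h7 : 1 ≤ L := by omega
  nlinarith [Nat.mul_le_mul_left D h7, Nat.mul_le_mul_left c h7]

end Pool.Agent.LibScale55
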