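import Pool.Agent.LibDual85.AdvB26
import Pool.Agent.LibDual85.AdvB27
import Pool.Agent.LibDual85.KProt
import Pool.Agent.LibScale55.Root

/-! From queries to advice, above the logarithm. -/

namespace Pool.Agent.LibScale55

open Function Pool.Agent.LibNexp Pool.Agent.LibBHN Pool.Agent.LibDual85 Pool.Agent.LibQry85

variable {O : List Bool → Bool}

private def reg_pad (r : ℕ) (β : List Bool) : List Bool :=
  β ++ true :: List.replicate (r - β.length - 1) false

private theorem reg_length {r : ℕ} {β : List Bool} (h : β.length < r) :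
    (reg_pad r β).length = r := by
  rw [reg_pad, List.length_append, List.length_cons, List.length_replicate]
  omega

private theorem reg_inj (r : ℕ) :
    Set.InjOn (fun β => val (reg_pad r β)) {β : List Bool | β.length < r} := by
  intro β hβ β' hβ' h
  have h1 : reg_pad r β = reg_pad r β' := by
    have h2 := bits_val (reg_pad r β)
    have h3 := bits_val (reg_pad r β')
    rw [reg_length hβ] at h2
    rw [reg_length hβ'] at h3
    rw [← h2, ← h3]
    exact congrArg (bits r) h
  exact pad_injective h1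

private theorem reg_maps (r : ℕ) :
    Set.MapsTo (fun β => val (reg_pad r β)) {β : List Bool | β.length < r}
      (Set.Iio (2 ^ r)) := by
  intro β hβ
  have h := cnt_val_lt (reg_pad r β)
  rw [reg_length hβ] at h
  exact h

private theorem reg_fin (r : ℕ) : {β : List Bool | β.length < r}.Finite :=
  Set.Finite.of_injOn (reg_maps r) (reg_inj r) (Set.finite_Iio _)

private theorem reg_ncard (r : ℕ) : {β : List Bool | β.length < r}.ncard ≤ 2 ^ r := by
  have h := Set.ncard_le_ncard_of_injOn _ (reg_maps r) (reg_inj r) (Set.finite_Iio _)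
  rwa [← Finset.coe_Iio, Set.ncard_coe_finset, Nat.card_Iio] at h

private theorem reg_log_pow (n k : ℕ) :
    Nat.log 2 ((n + 1) * 2 ^ k) = Nat.log 2 (n + 1) + k := by
  induction k with
  | zero => simp
  | succ k ih =>
    have h1 : 0 < (n + 1) * 2 ^ k := by positivity
    rw [pow_succ, ← mul_assoc, Nat.log_mul_base (by norm_num) h1.ne', ih, add_assoc]

/-- The number of true facts as advice. -/
theorem advice_of_bits {K : Lang} (hK : K ∈ NEXPLang O) {rho : ℕ → ℕ} (hrho : Constr O rho)
    (hrhop : PolyB rho) (hmono : Monotone rho) (h : BitLang K ∈ PQueryF (NEXPLang O) rho) :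
    Kᶜ ∈ WithAdvice (NEXPLang O)
      {f | ∀ n, (f n).length ≤ rho (3 * n + 2) + Nat.log 2 (n + 1) + 1} := by
  obtain ⟨F, hF, G, hG, hG', hL⟩ := kprot_of_pqueryF h
  obtain ⟨mm, hm1, hm2, hm3⟩ := exists_mm O hrhop
  have hprot : Prot O F G (fun β => β) rho mm :=
    { hF := hF
      hG := hG
      hG' := hG'
      hkey := nexp_eq 1 0
      hkl := fun β => le_refl _
      hrho := hrho.nexp 0 1
      hrhop := hrhop
      hmm := hm1
      hmmp := hm2
      hmml := hm3 }
  have hset : ∀ m : ℕ, {γ | ∃ β : List Bool, β.length < rho m ∧ γ = β} =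
      {β : List Bool | β.length < rho m} := by
    intro m
    ext γ
    constructor
    · rintro ⟨β, h1, rfl⟩
      exact h1
    · intro h1
      exact ⟨γ, h1, rfl⟩
  have hadv := LibDual85.advice_of_prot hprot hK hL (κ := fun m => 2 ^ rho m)
    (fun m => by
      rw [hset m]
      exact reg_ncard _)
    (fun m => by
      rw [hset m]
      exact reg_fin _)
  refine WithAdvice.mono (fun f hf n => ?_) hadv
  refine (hf n).trans ?_
  have h1 : ∑ i ∈ Finset.range (n + 1), 2 ^ rho (inp n i).length ≤
      (n + 1) * 2 ^ rho (3 * n + 2) := by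
    have h2 : ∀ i ∈ Finset.range (n + 1), 2 ^ rho (inp n i).length ≤ 2 ^ rho (3 * n + 2) := by
      intro i hi
      rw [Finset.mem_range] at hi
      refine Nat.pow_le_pow_right (by norm_num) (hmono ?_)
      rw [inp, length_pair, List.length_replicate, List.length_replicate]
      omega
    refine (Finset.sum_le_sum h2).trans (le_of_eq ?_)
    rw [Finset.sum_const, Finset.card_range, smul_eq_mul]
  have h3 := Nat.log_mono_right (b := 2) h1
  rw [reg_log_pow] at h3
  omega

/-- Functions smaller than all powers. -/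
def SubPoly (r : ℕ → ℕ) : Prop := ∀ j, ∃ n0, ∀ n, n0 ≤ n → r n ^ j ≤ n

theorem SubPoly.polyB {r : ℕ → ℕ} (h : SubPoly r) : PolyB r := by
  obtain ⟨n0, h0⟩ := h 1
  refine (PolyB.id.add (PolyB.const ((Finset.range n0).sup r))).mono fun n => ?_
  rcases Nat.lt_or_ge n n0 with h2 | h2
  · have h3 : r n ≤ (Finset.range n0).sup r := Finset.le_sup (Finset.mem_range.2 h2)
    omega
  · have h3 := h0 n h2
    rw [pow_one] at h3
    omega

/-- Small roots are larger. -/
theorem SubPoly.le_root {r : ℕ → ℕ} (h : SubPoly r) (k c : ℕ) {K : ℕ} (hK : 1 ≤ K) :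
    ∃ n0, ∀ n, n0 ≤ n → r (n ^ k + k) + c ≤ Nat.nthRoot K n := by
  obtain ⟨n0, h0⟩ := h (2 * K * (k + 1))
  refine ⟨n0 + (c + 2) ^ (2 * K) + (r 1 + c) ^ K + k + 2, fun n hn => ?_⟩
  have hK0 : K ≠ 0 := by omega
  rw [Nat.le_nthRoot_iff hK0]
  have hc : (c + 2) ^ (2 * K) ≤ n := by omega
  rcases Nat.eq_zero_or_pos k with rfl | hk
  · show (r (n ^ 0 + 0) + c) ^ K ≤ n
    rw [pow_zero, add_zero]
    omega
  · have h1 : n ≤ n ^ k := Nat.le_self_pow (by omega) n
    have h2 : n ≤ n ^ k + k := h1.trans (Nat.le_add_right _ _)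
    have h3 := h0 (n ^ k + k) (by omega)
    have h4 : n ^ k + k ≤ n ^ (k + 1) := by
      have h9 : n ^ k * 2 ≤ n ^ k * n := Nat.mul_le_mul_left _ (by omega)
      rw [pow_succ]
      omega
    have h5 : r (n ^ k + k) ^ (2 * K) ≤ n := by
      rw [pow_mul] at h3
      exact (Nat.pow_le_pow_iff_left (by omega)).1 (h3.trans h4)
    have h6 : (max (r (n ^ k + k)) (c + 2)) ^ (2 * K) ≤ n := by
      rcases max_choice (r (n ^ k + k)) (c + 2) with h7 | h7
      · rw [h7]; exact h5
      · rw [h7]; exact hc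
    refine le_trans ?_ h6
    rw [pow_mul]
    apply Nat.pow_le_pow_left
    have h7 := le_max_left (r (n ^ k + k)) (c + 2)
    have h8 := le_max_right (r (n ^ k + k)) (c + 2)
    generalize max (r (n ^ k + k)) (c + 2) = b at h7 h8 ⊢
    nlinarith

/-- Logarithms are smaller than all powers. -/
theorem subPoly_of_log {r : ℕ → ℕ} {C D : ℕ} (h : ∀ n, r n ≤ C * Nat.log 2 (n + 1) + D) :
    SubPoly r := by
  intro j
  obtain ⟨n0, h0⟩ := log_le_root C D 1 C (K := j + 1) (by omega)
  refine ⟨n0 + 1, fun n hn => ?_⟩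
  have h1 := h0 n (by omega)
  have h2 : Nat.log 2 (n + 1) ≤ Nat.log 2 (n ^ 1 + 1 + 1) := Nat.log_mono_right (by simp)
  have h3 : r n ≤ Nat.nthRoot (j + 1) n := by
    have h4 := Nat.mul_le_mul_left C h2
    have h5 := h n
    omega
  rw [Nat.le_nthRoot_iff (by omega)] at h3
  rcases Nat.eq_zero_or_pos (r n) with h4 | h4
  · rw [h4]
    exact (pow_le_one' (Nat.zero_le 1) j).trans (by omega)
  · exact (Nat.pow_le_pow_right h4 (by omega)).trans h3

end Pool.Agent.LibScale55
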