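import Pool.Agent.LibPow85.Main
import Pool.Agent.LibScale55.Reg

/-! From the polynomial scale to smaller scales. -/

namespace Pool.Agent.LibScale55

open Function Pool.Agent.LibNexp Pool.Agent.LibBHN Pool.Agent.LibQry85
open Pool.Agent.LibDual85 hiding FSet NoCert KStep BitC CStep Prot RelB
open Pool.Agent.LibPow85 (fpow constr_fpow fpow_poly le_fpow)

variable {O : List Bool → Bool}

theorem root_gt {k n : ℕ} (hk : 1 ≤ k) (hn : 1 ≤ n) :
    fpow ((1 : ℕ) / ((2 * k : ℕ) : ℝ)) n ≤ Nat.nthRoot k n := by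
  have h1 := (le_fpow (j := 1) (q := 2 * k) (by omega)
    (fpow ((1 : ℕ) / ((2 * k : ℕ) : ℝ)) n) n).1 le_rfl
  rw [Nat.le_nthRoot_iff (by omega)]
  generalize fpow ((1 : ℕ) / ((2 * k : ℕ) : ℝ)) n = t at h1
  rw [pow_one, two_mul, pow_add] at h1
  rcases Nat.lt_or_ge t 2 with h2 | h2
  · have h3 : t ^ k ≤ 1 ^ k := Nat.pow_le_pow_left (by omega) k
    rw [one_pow] at h3
    omega
  · have h3 : 2 ≤ t ^ k := h2.trans (Nat.le_self_pow (by omega) t)
    nlinarith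

theorem qry_of_poly {r : ℕ → ℕ} (hr : Constr O r) (hs : SubPoly r) {k : ℕ} (hk : 1 ≤ k)
    (h : ∀ L ∈ PQueryF (NEXPLang O) (fun n => Nat.nthRoot k n + 1), ∃ c : ℕ,
      L ∈ PQueryF (NEXPLang O) fun n => r n + c) :
    ∀ L ∈ POracle (NEXPLang O), ∃ c : ℕ, L ∈ PQueryF (NEXPLang O) fun n => r n + c := by
  have hrp := hs.polyB
  have hq : 1 ≤ 2 * k := by omega
  have hroot : Constr O fun n => Nat.nthRoot k n + 1 := by
    have := (constr_root O hk).lin (PolyB.id.mono (root_le k hk)) 1 1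
    simpa using this
  have hrootp : PolyB fun n => Nat.nthRoot k n + 1 :=
    (PolyB.id.mono (root_le k hk)).add (PolyB.const 1)
  have hsub : ∀ L ∈ PQueryF (NEXPLang O) (fpow ((1 : ℕ) / ((2 * k : ℕ) : ℝ))),
      ∃ c : ℕ, L ∈ PQueryF (NEXPLang O) fun n => r n + c := fun L hL =>
    h L (pqueryF_up hroot hrootp (constr_fpow O hq) fpow_poly (fun n => by omega) (n0 := 1)
      (fun n hn => Nat.add_le_add_right (root_gt hk hn) 1) hL)
  have h12 : (∃ α β : ℚ, 0 ≤ α ∧ α < β ∧ ∀ L ∈ PQueryF (NEXPLang O) (fpow β), ∃ c : ℕ,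
        L ∈ PQueryF (NEXPLang O) fun n => c * fpow α n + c) ↔
      ∀ ε : ℚ, 0 < ε → PQueryF (NEXPLang O) (fpow ε) = POracle (NEXPLang O) :=
    (LibPow85.main O).out 0 1
  have e1 : (((1 / (2 * k : ℕ) : ℚ)) : ℝ) = (1 : ℕ) / ((2 * k : ℕ) : ℝ) := by push_cast; ring
  have e2 : (((1 / (4 * k : ℕ) : ℚ)) : ℝ) = (1 : ℕ) / ((4 * k : ℕ) : ℝ) := by push_cast; ring
  have hk0 : (0 : ℚ) < k := by exact_mod_cast hk
  have h2 := h12.1 ⟨1 / (4 * k : ℕ), 1 / (2 * k : ℕ), by positivity, by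
    push_cast
    rw [div_lt_div_iff₀ (by positivity) (by positivity)]
    linarith, fun L hL => by
    rw [e1] at hL
    obtain ⟨c, hc⟩ := hsub L hL
    obtain ⟨n0, hn0⟩ := hs (4 * k)
    refine ⟨c + 1, ?_⟩
    rw [e2]
    have hr' : Constr O fun n => r n + c := by
      have := hr.lin hrp 1 c
      simpa using this
    refine pqueryF_up (n0 := n0) ((constr_fpow O (by omega)).lin fpow_poly (c + 1) (c + 1))
      (((PolyB.const (c + 1)).mul fpow_poly).add (PolyB.const (c + 1))) hr'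
      (hrp.add (PolyB.const c)) (fun n => by omega) (fun n hn => ?_) hc
    have h3 : r n ≤ fpow ((1 : ℕ) / ((4 * k : ℕ) : ℝ)) n := by
      rw [le_fpow (by omega), pow_one]
      exact (hn0 n hn).trans (Nat.le_succ n)
    have h4 : 1 * fpow ((1 : ℕ) / ((4 * k : ℕ) : ℝ)) n ≤
        (c + 1) * fpow ((1 : ℕ) / ((4 * k : ℕ) : ℝ)) n := Nat.mul_le_mul_right _ (by omega)
    omega⟩ (1 / (2 * k : ℕ)) (by positivity)
  rw [e1] at h2
  intro L hL
  rw [← h2] at hL
  exact hsub L hL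

end Pool.Agent.LibScale55
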