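import Pool.Agent.LibDual85.Main
import Pool.Agent.LibScale55.AdvC
import Pool.Agent.LibScale55.Down
import Pool.Agent.LibScale55.MinQ
import Pool.Agent.LibScale55.Poly
import Pool.Agent.LibSelfLaw.Savings

/-! The scale law. -/

namespace Pool.Agent.LibScale55

open Function Pool.Agent.LibNexp Pool.Agent.LibBHN Pool.Agent.LibDual85 Pool.Agent.LibQry85
  Pool.Agent.LibSelfLaw

variable {O : List Bool → Bool}

/-- Complements with advice of length `s`, up to constants. -/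
def Adv (O : List Bool → Bool) (s : ℕ → ℕ) : Prop :=
  ∀ L ∈ NEXPLang O, ∃ c : ℕ, Lᶜ ∈ WithAdvice (NEXPLang O) {f | ∀ n, (f n).length ≤ s n + c}

/-- All of `P^NEXP` with `s` queries, up to constants. -/
def Qry (O : List Bool → Bool) (s : ℕ → ℕ) : Prop :=
  ∀ L ∈ POracle (NEXPLang O), ∃ c : ℕ, L ∈ PQueryF (NEXPLang O) fun n => s n + c

theorem polyB_of_logC {r : ℕ → ℕ} {C D : ℕ} (h : ∀ n, r n ≤ C * Nat.log 2 (n + 1) + D) :
    PolyB r := by
  refine (((PolyB.const C).mul PolyB.id).add (PolyB.const D)).mono fun n => (h n).trans ?_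
  have h1 : Nat.log 2 (n + 1) ≤ n := Nat.le_of_lt_succ (Nat.log_lt_self 2 (Nat.succ_ne_zero n))
  exact Nat.add_le_add_right (Nat.mul_le_mul_left C h1) D

theorem le_log_of_small {r : ℕ → ℕ} {M D : ℕ}
    (hM : ∀ n, (M + 1) * r n ≤ M * Nat.log 2 (n + 1) + D) (n : ℕ) :
    r n ≤ Nat.log 2 (n + 1) + D := by
  by_contra hcon
  push Not at hcon
  have h1 := hM n
  have h2 : (M + 1) * (Nat.log 2 (n + 1) + D) < (M + 1) * r n :=
    Nat.mul_lt_mul_of_pos_left hcon (Nat.succ_pos M)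
  nlinarith

/-- Finitely many lengths only change the constant. -/
theorem advice_ev {L : Lang} {s t : ℕ → ℕ} {n0 c : ℕ}
    (h : L ∈ WithAdvice (NEXPLang O) {f | ∀ n, (f n).length ≤ s n})
    (hst : ∀ n, n0 ≤ n → s n ≤ t n + c) :
    ∃ c' : ℕ, L ∈ WithAdvice (NEXPLang O) {f | ∀ n, (f n).length ≤ t n + c'} := by
  refine ⟨c + (Finset.range n0).sup s, WithAdvice.mono (fun f hf n => ?_) h⟩
  have h1 := hf n
  rcases Nat.lt_or_ge n n0 with h2 | h2
  · have h3 : s n ≤ (Finset.range n0).sup s := Finset.le_sup (Finset.mem_range.2 h2)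
    omega
  · have := hst n h2
    omega

/-- From queries to advice, below the logarithm. -/
theorem adv_of_gap {r : ℕ → ℕ} (hr : Constr O r) (hm : Monotone r) {M D : ℕ}
    (hM : ∀ n, (M + 1) * r n ≤ M * Nat.log 2 (n + 1) + D) {R : ℕ → ℕ} (hR : Constr O R)
    (hRp : PolyB R) (hgap : ∀ c : ℕ, ∃ n0, ∀ n, n0 ≤ n → r n + c ≤ R n)
    (h : ∀ L ∈ PQueryF (NEXPLang O) R, ∃ c : ℕ, L ∈ PQueryF (NEXPLang O) fun n => r n + c) :
    Adv O fun n => r (n ^ (M + 2)) := by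
  intro K hK
  have hrp : PolyB r := polyB_of_log hM
  obtain ⟨Lc, hLc, hLc2⟩ := exists_hardLang hK hR hRp
  obtain ⟨c, hc⟩ := h Lc hLc
  have hr' : Constr O fun n => r n + c := by
    have := hr.lin hrp 1 c
    simpa using this
  obtain ⟨n0, hn0⟩ := hgap (c + 1)
  have h1 := hLc2 (fun n => r n + c) M (D + (M + 1) * c) n0 hr' (fun n => by
    have := hM n
    rw [Nat.mul_add]
    omega) (fun n hn => by
    have := hn0 n hn
    show r n + c < R n
    omega) hc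
  obtain ⟨n1, hn1⟩ := ellq_le M (D + (M + 1) * c)
  exact advice_ev (n0 := n1) (c := c + 1) h1 fun n hn => by
    have := hm (hn1 n hn)
    show r _ + c + 1 ≤ _
    omega

theorem gap_of_qry {r : ℕ → ℕ} {M D : ℕ}
    (hM : ∀ n, (M + 1) * r n ≤ M * Nat.log 2 (n + 1) + D) (h : Qry O r) :
    ∃ R : ℕ → ℕ, Constr O R ∧ (∃ c, ∀ n, R n ≤ n ^ c + c) ∧
      (∀ c : ℕ, ∃ n0, ∀ n, n0 ≤ n → r n + c ≤ R n) ∧
      ∀ L ∈ PQueryF (NEXPLang O) R, ∃ c : ℕ, L ∈ PQueryF (NEXPLang O) fun n => r n + c := by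
  refine ⟨fun n => n ^ 1, constr_pow O 1, PolyB.id.pow 1, fun c => ⟨2 * (D + c + 2), fun n hn => ?_⟩,
    fun L hL => h L (pqueryF_subset (constr_pow O 1) (PolyB.id.pow 1) hL)⟩
  have h2 := le_log_of_small hM n
  have h3 := log_le_half n
  show r n + c ≤ n ^ 1
  rw [pow_one]
  omega

theorem adv_of_qry_small {r : ℕ → ℕ} (hr : Constr O r) (hm : Monotone r) {M D : ℕ}
    (hM : ∀ n, (M + 1) * r n ≤ M * Nat.log 2 (n + 1) + D) (h : Qry O r) :
    Adv O fun n => r (n ^ (M + 2)) := by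
  obtain ⟨R, hR, hRp, hgap, hR2⟩ := gap_of_qry hM h
  exact adv_of_gap hr hm hM hR hRp hgap hR2

theorem adv_of_step {r : ℕ → ℕ} (hr : Constr O r) (hm : Monotone r) {M D : ℕ}
    (hM : ∀ n, (M + 1) * r n ≤ M * Nat.log 2 (n + 1) + D)
    (h : PQueryF (NEXPLang O) (fun n => r n + 1) ⊆ PQueryF (NEXPLang O) r) :
    Adv O fun n => r (n ^ (M + 2)) := by
  intro K hK
  have hrp : PolyB r := polyB_of_log hM
  have hr' : Constr O fun n => r n + 1 := by
    have := hr.lin hrp 1 1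
    simpa using this
  obtain ⟨Lc, hLc, hLc2⟩ := exists_hardLang hK hr' (hrp.add (PolyB.const 1))
  have h1 := hLc2 r M D 0 hr hM (fun n _ => Nat.lt_succ_self _) (h hLc)
  obtain ⟨n1, hn1⟩ := ellq_le M D
  exact advice_ev (n0 := n1) (c := 1) h1 fun n hn => by
    have := hm (hn1 n hn)
    omega

theorem adv_of_qry_log {r : ℕ → ℕ} (hr : Constr O r) (hm : Monotone r) {C D : ℕ}
    (hC : ∀ n, r n ≤ C * Nat.log 2 (n + 1) + D) (h : Qry O r) :
    ∃ k, Adv O fun n => r (n ^ k + k) := by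
  have hrp : PolyB r := polyB_of_logC hC
  have hlog : ∀ n : ℕ, Nat.log 2 (n + 1) ≤ n := fun n =>
    Nat.le_of_lt_succ (Nat.log_lt_self 2 (Nat.succ_ne_zero n))
  have hadd : ∀ c, Constr O fun n => r n + c := fun c => by
    have := hr.lin hrp 1 c
    simpa using this
  have hdiv : ∀ c, Constr O fun n => Nat.log 2 (n + 1) / 2 + c := fun c =>
    constr_of_nexp (LibDual85.nexp_logDiv (by norm_num) c 0 1)
  have hdivp : ∀ c, PolyB fun n => Nat.log 2 (n + 1) / 2 + c := fun c =>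
    (PolyB.id.add (PolyB.const c)).mono fun n => by
      have := hlog n
      omega
  have hlaw : ∃ C : ℕ, ∀ L ∈ POracle (NEXPLang O), ∃ c : ℕ,
      L ∈ PQueryF (NEXPLang O) fun n => C * Nat.log 2 (n + 1) + c := by
    refine ⟨C, fun L hL => ?_⟩
    obtain ⟨c, hc⟩ := h L hL
    refine ⟨D + c + 1, pqueryF_up (n0 := 0) (constr_of_nexp (LibDual85.nexp_logMul C _ 0 1))
      ?_ (hadd c) (hrp.add (PolyB.const c)) (fun n => by omega) (fun n _ => ?_) hc⟩
    · exact polyB_of_logC (C := C) (D := D + c + 1) fun n => le_rfl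
    · have := hC n
      omega
  have h12 : (∃ C : ℕ, ∀ L ∈ POracle (NEXPLang O), ∃ c : ℕ,
      L ∈ PQueryF (NEXPLang O) fun n => C * Nat.log 2 (n + 1) + c) ↔
      ∀ N : ℕ, 1 ≤ N → ∀ L ∈ POracle (NEXPLang O), ∃ c : ℕ,
        L ∈ PQueryF (NEXPLang O) fun n => Nat.log 2 (n + 1) / N + c := (main_law O).out 0 1
  have h2 := h12.1 hlaw 2 (by norm_num)
  have hrt : Constr O fun n => min (r n) (Nat.log 2 (n + 1) / 2 + 1) :=
    constr_min hr hrp (hdiv 1) (hdivp 1)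
  have hrtp : PolyB fun n => min (r n) (Nat.log 2 (n + 1) / 2 + 1) :=
    hrp.mono fun n => min_le_left _ _
  have hq : Qry O fun n => min (r n) (Nat.log 2 (n + 1) / 2 + 1) := by
    intro L hL
    obtain ⟨c1, hc1⟩ := h L hL
    obtain ⟨c2, hc2⟩ := h2 L hL
    have h3 := pqueryF_min (hadd c1) (hrp.add (PolyB.const c1)) (hdiv c2) (hdivp c2) hc1 hc2
    have h4 : Constr O fun n => min (r n + c1) (Nat.log 2 (n + 1) / 2 + c2) + 1 := by
      have := (constr_min (hadd c1) (hrp.add (PolyB.const c1)) (hdiv c2) (hdivp c2)).lin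
        ((hdivp c2).mono fun n => min_le_right _ _) 1 1
      simpa using this
    have h5 : Constr O fun n => min (r n) (Nat.log 2 (n + 1) / 2 + 1) + (c1 + c2 + 2) := by
      have := hrt.lin hrtp 1 (c1 + c2 + 2)
      simpa using this
    refine ⟨c1 + c2 + 2, pqueryF_up (n0 := 0) h5 (hrtp.add (PolyB.const _)) h4
      (((hdivp c2).mono fun n => min_le_right _ _).add (PolyB.const 1)) (fun n => by omega)
      (fun n _ => ?_) h3⟩
    omega
  have h6 := adv_of_qry_small (M := 1) (D := 2) hrt (fun a b hab => ?_) (fun n => ?_) hq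
  · refine ⟨3, fun K hK => ?_⟩
    obtain ⟨c, hc⟩ := h6 K hK
    refine ⟨c, WithAdvice.mono (fun f hf n => ?_) hc⟩
    have h8 : r (n ^ 3) ≤ r (n ^ 3 + 3) := hm (Nat.le_add_right _ _)
    have h9 : min (r (n ^ 3)) (Nat.log 2 (n ^ 3 + 1) / 2 + 1) ≤ r (n ^ 3) :=
      min_le_left _ _
    exact (hf n).trans (Nat.add_le_add_right (h9.trans h8) c)
  · have h7 := hm hab
    have h8 : Nat.log 2 (a + 1) / 2 ≤ Nat.log 2 (b + 1) / 2 :=
      Nat.div_le_div_right (Nat.log_mono_right (Nat.succ_le_succ hab))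
    show min _ _ ≤ min _ _
    omega
  · have h7 : min (r n) (Nat.log 2 (n + 1) / 2 + 1) ≤ Nat.log 2 (n + 1) / 2 + 1 :=
      min_le_right _ _
    omega

theorem adv_of_qry_reg {r : ℕ → ℕ} (hr : Constr O r) (hm : Monotone r) (hrp : PolyB r) {k : ℕ}
    (hk : ∀ n, r n + Nat.log 2 (n + 1) ≤ r (n ^ k + k) + k) (h : Qry O r) :
    ∃ k, Adv O fun n => r (n ^ k + k) := by
  obtain ⟨p, hp⟩ : PolyB fun n => (3 * n + 2) ^ k + k :=
    (((PolyB.const 3).mul PolyB.id).add (PolyB.const 2)).comp_pow k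
  refine ⟨p, fun K hK => ?_⟩
  obtain ⟨c, hc⟩ := h _ (bitLang_mem hK)
  have hr' : Constr O fun n => r n + c := by
    have := hr.lin hrp 1 c
    simpa using this
  have h1 := advice_of_bits hK hr' (hrp.add (PolyB.const c))
    (fun a b hab => Nat.add_le_add_right (hm hab) c) hc
  refine ⟨c + k + 1, WithAdvice.mono (fun f hf n => (hf n).trans ?_) h1⟩
  have h2 := hk (3 * n + 2)
  have h3 : r ((3 * n + 2) ^ k + k) ≤ r (n ^ p + p) := hm (hp n)
  have h4 : Nat.log 2 (n + 1) ≤ Nat.log 2 (3 * n + 2 + 1) := Nat.log_mono_right (by omega)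
  show r (3 * n + 2) + c + Nat.log 2 (n + 1) + 1 ≤ r (n ^ p + p) + (c + k + 1)
  omega

theorem adv_of_qry {r : ℕ → ℕ} (hr : Constr O r) (hm : Monotone r) (hrp : PolyB r)
    (hg : (∃ C, ∀ n, r n ≤ C * Nat.log 2 (n + 1) + C) ∨
      ∃ k, ∀ n, r n + Nat.log 2 (n + 1) ≤ r (n ^ k + k) + k) (h : Qry O r) :
    ∃ k, Adv O fun n => r (n ^ k + k) := by
  rcases hg with ⟨C, hC⟩ | ⟨k, hk⟩
  · exact adv_of_qry_log hr hm hC h
  · exact adv_of_qry_reg hr hm hrp hk h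

theorem adv_root {r : ℕ → ℕ} (hm : Monotone r) (hs : SubPoly r) {k : ℕ}
    (h : Adv O fun n => r (n ^ k + k)) {d : ℕ} (hd : 1 ≤ d) :
    Adv O fun n => r (Nat.nthRoot d n) := by
  obtain ⟨K, n0, hK, hn0⟩ := root_pow k hd
  have h1 := self_law (slow_root O hK) (s := fun n => r (n ^ k + k)) (fun c => hs.le_root k c hK)
    h 1
  intro L hL
  obtain ⟨c, hc⟩ := h1 L hL
  exact advice_ev (n0 := n0) (c := c) hc fun n hn => by
    have h2 := hm (hn0 n hn)
    show r _ + c ≤ _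
    simp only [iterate_one]
    omega

theorem polyB_comp_root {r : ℕ → ℕ} (hrp : PolyB r) {k : ℕ} (hk : 1 ≤ k) :
    PolyB fun n => r (Nat.nthRoot k n) := by
  obtain ⟨p, hp⟩ := hrp
  refine (PolyB.id.comp_pow p).mono fun n => (hp _).trans ?_
  exact Nat.add_le_add_right (Nat.pow_le_pow_left (root_le k hk n) p) p

theorem constr_comp_root {r : ℕ → ℕ} (hr : Constr O r) {k : ℕ} (hk : 1 ≤ k) :
    Constr O fun n => r (Nat.nthRoot k n) :=
  constr_comp hr (constr_root O hk) (PolyB.id.mono (root_le k hk))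

theorem constr_add {r : ℕ → ℕ} (hr : Constr O r) (hrp : PolyB r) (c : ℕ) :
    Constr O fun n => r n + c := by
  have := hr.lin hrp 1 c
  simpa using this

theorem qry_root {r : ℕ → ℕ} (hr : Constr O r) (hrp : PolyB r)
    (h : ∀ d, 1 ≤ d → Adv O fun n => r (Nat.nthRoot d n)) (hm : Monotone r) {k : ℕ} (hk : 1 ≤ k) :
    Qry O fun n => r (Nat.nthRoot k n) := by
  intro L hL
  obtain ⟨C, hC, c0, hLC⟩ := poracle_subset hL
  obtain ⟨d, n0, hd, hn0⟩ := root_mlen c0 hk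
  obtain ⟨c1, hc1⟩ := h d hd _ (padLang_mem hC)
  have hLeq : L = {x | pair x (ans C x (x.length ^ c0 + c0)) ∈ C} := by
    ext x
    exact hLC x
  set c2 := c1 + 1 + (Finset.range n0).sup fun n => r (Nat.nthRoot d (mlen c0 n)) with hc2
  have hlam : ∀ n, r (Nat.nthRoot d (mlen c0 n)) + c1 + 1 ≤ r (Nat.nthRoot k n) + c2 := by
    intro n
    rcases Nat.lt_or_ge n n0 with h2 | h2
    · have h3 : r (Nat.nthRoot d (mlen c0 n)) ≤
          (Finset.range n0).sup fun n => r (Nat.nthRoot d (mlen c0 n)) :=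
        Finset.le_sup (f := fun n => r (Nat.nthRoot d (mlen c0 n))) (Finset.mem_range.2 h2)
      omega
    · have := hm (hn0 n h2)
      omega
  obtain ⟨B, hB, hgood⟩ := exists_good hC c0 (s := fun n => r (Nat.nthRoot d n) + c1) hc1
    (lam := fun n => r (Nat.nthRoot k n) + c2) hlam
  have hN := (constr_add (constr_comp_root hr hk) (polyB_comp_root hrp hk) c2).nexp
    (k := 2) 0 1
  refine ⟨c2 + 1, ?_⟩
  rw [hLeq]
  have := pqueryF_of_good hB hC c0 hN ((polyB_comp_root hrp hk).add (PolyB.const c2)) hgood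
  exact this

theorem collapse_of_growth {r : ℕ → ℕ} (hr : Constr O r) (hrp : PolyB r) (h1 : ∀ n, 1 ≤ r n)
    {k : ℕ} (hk : 1 ≤ k) (hgrow : ∀ c : ℕ, ∃ n0, ∀ n, n0 ≤ n → r (Nat.nthRoot k n) + c ≤ r n)
    (h : Qry O fun n => r (Nat.nthRoot k n)) :
    PQueryF (NEXPLang O) r = POracle (NEXPLang O) := by
  refine (pqueryF_subset hr hrp).antisymm fun L hL => ?_
  obtain ⟨c, hc⟩ := h L hL
  obtain ⟨n0, hn0⟩ := hgrow (c + 1)
  have h2 := constr_comp hr (constr_root O hk) (PolyB.id.mono (root_le k hk))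
  have h3 : PolyB fun n => r (Nat.nthRoot k n) := by
    obtain ⟨p, hp⟩ := hrp
    refine (PolyB.id.comp_pow p).mono fun n => (hp _).trans ?_
    exact Nat.add_le_add_right (Nat.pow_le_pow_left (root_le k hk n) p) p
  have h4 : Constr O fun n => r (Nat.nthRoot k n) + c := by
    have := h2.lin h3 1 c
    simpa using this
  exact pqueryF_up hr hrp h4 (h3.add (PolyB.const c)) h1 (fun n hn => by
    have := hn0 n hn
    omega) hc

theorem collapse_of_step {r : ℕ → ℕ} (hr : Constr O r) (hrp : PolyB r)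
    (h : PQueryF (NEXPLang O) (fun n => r n + 1) ⊆ PQueryF (NEXPLang O) r) (hq : Qry O r) :
    PQueryF (NEXPLang O) r = POracle (NEXPLang O) := by
  refine (pqueryF_subset hr hrp).antisymm fun L hL => ?_
  obtain ⟨c, hc⟩ := hq L hL
  exact down hr hrp h c hc

/-- The scale law and the step law. -/
theorem main (O : List Bool → Bool) {r : ℕ → ℕ} (hr : Constr O r) (hm : Monotone r)
    (h1 : ∀ n, 1 ≤ r n) (hs : ∀ j, ∃ n0, ∀ n, n0 ≤ n → r n ^ j ≤ n)
    (hg : (∃ C, ∀ n, r n ≤ C * Nat.log 2 (n + 1) + C) ∨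
      ∃ k, ∀ n, r n + Nat.log 2 (n + 1) ≤ r (n ^ k + k) + k) :
    List.TFAE [
      ∀ L ∈ POracle (NEXPLang O), ∃ c : ℕ, L ∈ PQueryF (NEXPLang O) fun n => r n + c,
      ∀ k, 1 ≤ k → ∀ L ∈ POracle (NEXPLang O), ∃ c : ℕ,
        L ∈ PQueryF (NEXPLang O) fun n => r (Nat.nthRoot k n) + c,
      ∃ k, 1 ≤ k ∧ ∀ L ∈ PQueryF (NEXPLang O) (fun n => Nat.nthRoot k n + 1), ∃ c : ℕ,
        L ∈ PQueryF (NEXPLang O) fun n => r n + c,
      ∃ k, ∀ L ∈ NEXPLang O, ∃ c : ℕ,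
        Lᶜ ∈ WithAdvice (NEXPLang O) {f | ∀ n, (f n).length ≤ r (n ^ k + k) + c},
      ∀ k, 1 ≤ k → ∀ L ∈ NEXPLang O, ∃ c : ℕ,
        Lᶜ ∈ WithAdvice (NEXPLang O) {f | ∀ n, (f n).length ≤ r (Nat.nthRoot k n) + c}] ∧
    ((∃ k, 1 ≤ k ∧ ∀ c : ℕ, ∃ n0, ∀ n, n0 ≤ n → r (Nat.nthRoot k n) + c ≤ r n) →
      ((∀ L ∈ POracle (NEXPLang O), ∃ c : ℕ, L ∈ PQueryF (NEXPLang O) fun n => r n + c) ↔
        PQueryF (NEXPLang O) r = POracle (NEXPLang O))) ∧
    ((∃ M D : ℕ, ∀ n, (M + 1) * r n ≤ M * Nat.log 2 (n + 1) + D) →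
      (PQueryF (NEXPLang O) (fun n => r n + 1) ⊆ PQueryF (NEXPLang O) r ↔
        PQueryF (NEXPLang O) r = POracle (NEXPLang O)) ∧
      ((∃ R : ℕ → ℕ, Constr O R ∧ (∃ c, ∀ n, R n ≤ n ^ c + c) ∧
        (∀ c : ℕ, ∃ n0, ∀ n, n0 ≤ n → r n + c ≤ R n) ∧
        ∀ L ∈ PQueryF (NEXPLang O) R, ∃ c : ℕ, L ∈ PQueryF (NEXPLang O) fun n => r n + c) ↔
        ∀ L ∈ POracle (NEXPLang O), ∃ c : ℕ, L ∈ PQueryF (NEXPLang O) fun n => r n + c)) := by
  have hrp : PolyB r := SubPoly.polyB hs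
  have t12 : (∀ k, 1 ≤ k → Qry O fun n => r (Nat.nthRoot k n)) → Qry O r := fun h =>
    h 1 le_rfl
  have t31 : ∀ k, (Adv O fun n => r (n ^ k + k)) → Qry O r := fun k h =>
    t12 fun j hj => qry_root hr hrp (fun d hd => adv_root hm hs h hd) hm hj
  have tM : ∀ M, (Adv O fun n => r (n ^ (M + 2))) → Qry O r := fun M h =>
    t31 (M + 2) fun L hL => by
      obtain ⟨c, hc⟩ := h L hL
      refine ⟨c, WithAdvice.mono (fun f hf n => ?_) hc⟩
      exact (hf n).trans (Nat.add_le_add_right (hm (Nat.le_add_right _ _)) c)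
  have tfae : List.TFAE [Qry O r, ∀ k, 1 ≤ k → Qry O fun n => r (Nat.nthRoot k n),
      ∃ k, 1 ≤ k ∧ ∀ L ∈ PQueryF (NEXPLang O) (fun n => Nat.nthRoot k n + 1), ∃ c : ℕ,
        L ∈ PQueryF (NEXPLang O) fun n => r n + c,
      ∃ k, Adv O fun n => r (n ^ k + k), ∀ k, 1 ≤ k → Adv O fun n => r (Nat.nthRoot k n)] := by
    tfae_have 1 → 4 := adv_of_qry hr hm hrp hg
    tfae_have 4 → 5 := fun ⟨k, h⟩ d hd => adv_root hm hs h hd
    tfae_have 5 → 2 := fun h k hk => qry_root hr hrp h hm hk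
    tfae_have 2 → 1 := t12
    tfae_have 1 → 3 := fun h => ⟨1, le_rfl, fun L hL => h L (pqueryF_subset
      (constr_add (constr_root O le_rfl) (PolyB.id.mono (root_le 1 le_rfl)) 1)
      ((PolyB.id.mono (root_le 1 le_rfl)).add (PolyB.const 1)) hL)⟩
    tfae_have 3 → 1 := fun ⟨k, hk, h⟩ => qry_of_poly hr hs hk h
    tfae_finish
  have t : Qry O r ↔ ∀ k, 1 ≤ k → Qry O fun n => r (Nat.nthRoot k n) := tfae.out 0 1
  refine ⟨tfae, fun ⟨k, hk, hgrow⟩ => ⟨fun h => ?_, fun h L hL => ⟨0, ?_⟩⟩, fun ⟨M, E, hM⟩ =>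
    ⟨⟨fun h => ?_, fun h => ?_⟩, fun ⟨R, hR, hRp, hgap, h⟩ => ?_, gap_of_qry hM⟩⟩
  · exact collapse_of_growth hr hrp h1 hk hgrow (t.1 h k hk)
  · rw [← h] at hL
    simpa using hL
  · exact collapse_of_step hr hrp h (tM M (adv_of_step hr hm hM h))
  · rw [h]
    have h2 : Constr O fun n => r n + 1 := by
      have := hr.lin hrp 1 1
      simpa using this
    exact pqueryF_subset h2 (hrp.add (PolyB.const 1))
  · exact tM M (adv_of_gap hr hm hM hR hRp hgap h)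

end Pool.Agent.LibScale55
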